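import Pool.Agent.R286.UW.Stm

/-!
UW-BOX: elements and functionals of `L^p` given by bounded measurable functions (helper466).
-/

set_option autoImplicit false

open Filter Topology MeasureTheory
open scoped ENNReal

namespace Pool.Agent.R286.UW

namespace BoxAux

variable {𝕜 : Type*} [RCLike 𝕜]

theorem bm_memLp {h : unitInterval → ℝ} (H : BM h) (p : ℝ≥0∞) :
    MemLp (fun t => (h t : 𝕜)) p (volume : Measure unitInterval) := by
  obtain ⟨hm, B, hB⟩ := H
  refine MemLp.of_bound ?_ B (ae_of_all _ fun t => ?_)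
  · exact (RCLike.measurable_ofReal.comp hm).aestronglyMeasurable
  · rw [RCLike.norm_ofReal]
    exact hB t

theorem bm_add {h h' : unitInterval → ℝ} (H : BM h) (H' : BM h') : BM (fun x => h x + h' x) := by
  obtain ⟨hm, B, hB⟩ := H
  obtain ⟨hm', B', hB'⟩ := H'
  exact ⟨hm.add hm', B + B', fun t => (abs_add_le _ _).trans (add_le_add (hB t) (hB' t))⟩

theorem bm_mul {h : unitInterval → ℝ} (c : ℝ) (H : BM h) : BM (fun x => c * h x) := by
  obtain ⟨hm, B, hB⟩ := H
  refine ⟨hm.const_mul c, |c| * B, fun t => ?_⟩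
  rw [abs_mul]
  exact mul_le_mul_of_nonneg_left (hB t) (abs_nonneg _)

theorem bm_zero : BM (fun _ : unitInterval => (0:ℝ)) :=
  ⟨measurable_const, 0, fun t => by simp⟩

theorem bm_sum (t : ℕ → ℝ) (h : ℕ → unitInterval → ℝ) (F : Finset ℕ) (H : ∀ n, BM (h n)) :
    BM (fun x => ∑ n ∈ F, t n * h n x) := by
  classical
  induction F using Finset.induction_on with
  | empty => simpa using bm_zero
  | insert a s ha ih =>
    simp only [Finset.sum_insert ha]
    exact bm_add (bm_mul _ (H a)) ih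

open Classical in
/-- the element of `L^p` -/
noncomputable def el (𝕜 : Type*) [RCLike 𝕜] (p : ℝ≥0∞) (h : unitInterval → ℝ) :
    Lp 𝕜 p (volume : Measure unitInterval) :=
  if H : BM h then (bm_memLp H p).toLp (fun t => (h t : 𝕜)) else 0

theorem el_pos (p : ℝ≥0∞) {h : unitInterval → ℝ} (H : BM h) :
    el 𝕜 p h = (bm_memLp H p).toLp (fun t => (h t : 𝕜)) := by
  unfold el
  rw [dif_pos H]

theorem el_ae (p : ℝ≥0∞) {h : unitInterval → ℝ} (H : BM h) :
    (el 𝕜 p h : unitInterval → 𝕜) =ᵐ[volume] fun t => (h t : 𝕜) := by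
  rw [el_pos p H]
  exact MemLp.coeFn_toLp _

theorem el_add (p : ℝ≥0∞) {h h' : unitInterval → ℝ} (H : BM h) (H' : BM h') :
    el 𝕜 p (fun x => h x + h' x) = el 𝕜 p h + el 𝕜 p h' := by
  rw [el_pos p H, el_pos p H', el_pos p (bm_add H H'), ← MemLp.toLp_add]
  congr 1
  ext t
  simp

theorem el_mul (p : ℝ≥0∞) (c : ℝ) {h : unitInterval → ℝ} (H : BM h) :
    el 𝕜 p (fun x => c * h x) = (c : 𝕜) • el 𝕜 p h := by
  rw [el_pos p H, el_pos p (bm_mul c H), ← MemLp.toLp_const_smul]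
  congr 1
  ext t
  simp

theorem el_zero (p : ℝ≥0∞) : el 𝕜 p (fun _ => (0:ℝ)) = 0 := by
  have := el_mul (𝕜 := 𝕜) p 0 bm_zero
  simpa using this

theorem el_sum (p : ℝ≥0∞) (t : ℕ → ℝ) (h : ℕ → unitInterval → ℝ) (F : Finset ℕ)
    (H : ∀ n, BM (h n)) :
    el 𝕜 p (fun x => ∑ n ∈ F, t n * h n x) = ∑ n ∈ F, (t n : 𝕜) • el 𝕜 p (h n) := by
  classical
  induction F using Finset.induction_on with
  | empty => simpa using el_zero p
  | insert a s ha ih =>
    simp only [Finset.sum_insert ha]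
    rw [el_add p (bm_mul _ (H a)) (bm_sum t h s H), el_mul p _ (H a), ih]

theorem el_norm (p : ℝ≥0∞) (hp0 : p ≠ 0) (hp : p ≠ ∞) {h : unitInterval → ℝ} (H : BM h) :
    ‖el 𝕜 p h‖ = nrm p.toReal h := by
  rw [el_pos p H, Lp.norm_toLp, MemLp.eLpNorm_eq_integral_rpow_norm hp0 hp (bm_memLp H p),
    ENNReal.toReal_ofReal]
  · unfold nrm
    simp only [RCLike.norm_ofReal, one_div]
  · positivity

end BoxAux

open BoxAux

theorem box {𝕜 : Type*} [RCLike 𝕜] : StBox 𝕜 := by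
  intro p _ hp1 hp
  obtain ⟨q, hq⟩ : ∃ q, q = ENNReal.conjExponent p := ⟨_, rfl⟩
  haveI hpq : ENNReal.HolderConjugate p q := by rw [hq]; infer_instance
  haveI hqp : ENNReal.HolderConjugate q p := hpq.symm
  haveI hq1 : Fact (1 ≤ q) := ⟨hqp.one_le⟩
  have hp1' : 1 < p.toReal := by
    rw [← ENNReal.toReal_one]
    exact (ENNReal.toReal_lt_toReal ENNReal.one_ne_top hp.ne).2 hp1
  have hconj : p.toReal.HolderConjugate q.toReal := ENNReal.HolderConjugate.toReal hp1'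
  have hqr : q.toReal = p.toReal / (p.toReal - 1) := hconj.conjugate_eq
  have hq1' : 1 < q.toReal := hconj.symm.lt
  have hq0 : q ≠ 0 := by
    intro h0
    rw [h0] at hq1'
    simp at hq1'
    linarith
  have hqt : q ≠ ∞ := by
    intro h0
    rw [h0] at hq1'
    simp at hq1'
    linarith
  have hp0 : p ≠ 0 := by
    intro h0
    rw [h0] at hp1
    simp at hp1
  refine ⟨el 𝕜 p, fun h => (ContinuousLinearMap.mul 𝕜 𝕜).lpPairing volume q p (el 𝕜 q h),
    ?_, ?_, ?_, ?_, ?_⟩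
  · intro h H
    exact (el_norm p hp0 hp.ne H).le
  · intro h H
    rw [← hqr, ← el_norm (𝕜 := 𝕜) q hq0 hqt H]
    refine ContinuousLinearMap.opNorm_le_bound _ (norm_nonneg _) ?_
    intro g
    have h1 : (ContinuousLinearMap.mul 𝕜 𝕜).lpPairing volume q p (el 𝕜 q h) g =
        L1.integral ((ContinuousLinearMap.mul 𝕜 𝕜).holder 1 (el 𝕜 q h) g) := by
      rw [L1.integral_eq' 𝕜]
      rfl
    rw [h1]
    refine (L1.norm_integral_le _).trans ?_
    refine (ContinuousLinearMap.norm_holder_apply_apply_le _ _ _).trans ?_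
    have h2 : ‖ContinuousLinearMap.mul 𝕜 𝕜‖ ≤ 1 := ContinuousLinearMap.opNorm_mul_le 𝕜 𝕜
    calc ‖ContinuousLinearMap.mul 𝕜 𝕜‖ * ‖el 𝕜 q h‖ * ‖g‖ ≤ 1 * ‖el 𝕜 q h‖ * ‖g‖ := by gcongr
      _ = ‖el 𝕜 q h‖ * ‖g‖ := by rw [one_mul]
  · intro h h' H H'
    rw [ContinuousLinearMap.lpPairing_eq_integral, ← integral_ofReal]
    refine integral_congr_ae ?_
    filter_upwards [el_ae (𝕜 := 𝕜) q H, el_ae (𝕜 := 𝕜) p H'] with t e1 e2
    rw [e1, e2]
    simp
  · intro t h F H
    exact el_sum p t h F H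
  · intro t h F H
    show (ContinuousLinearMap.mul 𝕜 𝕜).lpPairing volume q p
        (el 𝕜 q (fun x => ∑ n ∈ F, t n * h n x)) = _
    rw [el_sum q t h F H, map_sum]
    refine Finset.sum_congr rfl fun n _ => ?_
    rw [map_smul]

end Pool.Agent.R286.UW
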