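import Pool.Agent.R286.UW.Stm

namespace Pool.Agent.R286.UW

namespace Diag

theorem finite_not_mem {𝒰 : Ultrafilter ℕ} (h : ∀ n : ℕ, ({n} : Set ℕ) ∉ 𝒰) {S : Set ℕ}
    (hS : S.Finite) : S ∉ 𝒰 := by
  intro hm
  have h1 : S = ⋃ i ∈ S, ({i} : Set ℕ) := by
    ext x
    simp
  rw [h1, Ultrafilter.finite_biUnion_mem_iff hS] at hm
  obtain ⟨i, -, hi⟩ := hm
  exact h i hi

/-- block ends -/
def e (g : ℕ → ℕ) : ℕ → ℕ
  | 0 => 0
  | i + 1 => g (e g i) + 1

theorem e_strict {g : ℕ → ℕ} (hg : ∀ j, j ≤ g j) : StrictMono (e g) := by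
  apply strictMono_nat_of_lt_succ
  intro i
  have := hg (e g i)
  change e g i < g (e g i) + 1
  omega

theorem block {g : ℕ → ℕ} (hg : ∀ j, j ≤ g j) : ∃ c : ℕ → ℕ, ∀ n, e g (c n) ≤ n ∧
    n < e g (c n + 1) := by
  classical
  refine ⟨fun n => Nat.findGreatest (fun i => e g i ≤ n) n, ?_⟩
  intro n
  have hs := e_strict hg
  constructor
  · exact Nat.findGreatest_spec (P := fun i => e g i ≤ n) (Nat.zero_le n) (Nat.zero_le n)
  · by_contra hc
    rw [not_lt] at hc
    have h1 : Nat.findGreatest (fun i => e g i ≤ n) n + 1 ≤ n := (hs.le_apply).trans hc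
    exact Nat.findGreatest_is_greatest (P := fun i => e g i ≤ n) (Nat.lt_succ_self _) h1 hc

end Diag

open Diag in
theorem diag : StDiag := by
  classical
  intro 𝒰 hsel B hB
  obtain ⟨hnp, hsel⟩ := hsel
  have hfin : ∀ {S : Set ℕ}, S.Finite → S ∉ 𝒰 := fun hS => finite_not_mem hnp hS
  -- the modified sets
  let B' : ℕ → Set ℕ := fun j => {n | j < n ∧ ∀ i ≤ j, n ∈ B i}
  have hB' : ∀ j, B' j ∈ 𝒰 := by
    intro j
    have h1 : {n : ℕ | j < n} ∈ 𝒰 := by
      rw [← Ultrafilter.compl_notMem_iff]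
      apply hfin
      apply (Set.finite_le_nat j).subset
      intro n hn
      simp only [Set.mem_compl_iff, Set.mem_ofPred_eq, not_lt] at hn
      exact hn
    have h2 : ∀ k : ℕ, {n : ℕ | ∀ i ≤ k, n ∈ B i} ∈ 𝒰 := by
      intro k
      induction k with
      | zero =>
        apply Filter.mem_of_superset (hB 0)
        intro n hn i hi
        have : i = 0 := by omega
        rw [this]
        exact hn
      | succ k ih =>
        apply Filter.mem_of_superset (Filter.inter_mem ih (hB (k + 1)))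
        rintro n ⟨hn1, hn2⟩ i hi
        rcases Nat.lt_or_ge k i with h | h
        · have : i = k + 1 := by omega
          rw [this]
          exact hn2
        · exact hn1 i h
    exact Filter.mem_of_superset (Filter.inter_mem h1 (h2 j)) (fun n hn => hn)
  have hex : ∀ n, ∃ j, n ∉ B' j := fun n => ⟨n, fun h => lt_irrefl n h.1⟩
  let f : ℕ → ℕ := fun n => Nat.find (hex n)
  have hf1 : ∀ n, n ∉ B' (f n) := fun n => Nat.find_spec (hex n)
  have hf2 : ∀ n j, j < f n → n ∈ B' j := by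
    intro n j hj
    by_contra hc
    exact Nat.find_min (hex n) hj hc
  obtain ⟨A1, hA1, hinj1⟩ := hsel f (by
    intro j hj
    have h1 : (f ⁻¹' {j}) ∩ B' j = ∅ := by
      ext n
      simp only [Set.mem_inter_iff, Set.mem_preimage, Set.mem_singleton_iff, Set.mem_empty_iff_false,
        iff_false, not_and]
      intro h1 h2
      rw [← h1] at h2
      exact hf1 n h2
    have h2 := Filter.inter_mem hj (hB' j)
    rw [h1] at h2
    exact hfin Set.finite_empty h2)
  have hN : ∀ j, ∃ N, ∀ n ∈ A1, N ≤ n → n ∈ B j := by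
    intro j
    have h1 : {n | n ∈ A1 ∧ f n ≤ j}.Finite := by
      apply Set.Finite.of_finite_image (f := f)
      · apply (Set.finite_le_nat j).subset
        rintro _ ⟨n, hn, rfl⟩
        exact hn.2
      · intro a ha b hb hab
        exact hinj1 ha.1 hb.1 hab
    obtain ⟨N, hN⟩ := h1.bddAbove
    refine ⟨N + 1, ?_⟩
    intro n hn hle
    by_cases hfn : f n ≤ j
    · have := hN (show n ∈ {n | n ∈ A1 ∧ f n ≤ j} from ⟨hn, hfn⟩)
      omega
    · exact (hf2 n j (not_le.1 hfn)).2 j le_rfl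
  choose N hN using hN
  let g : ℕ → ℕ := fun j => (∑ i ∈ Finset.range (j + 1), N i) + j
  have hg : ∀ j, j ≤ g j := fun j => Nat.le_add_left _ _
  have hgN : ∀ j m n, m ≤ j → n ∈ A1 → g j ≤ n → n ∈ B m := by
    intro j m n hmj hn hgn
    apply hN m n hn
    have h1 : N m ≤ ∑ i ∈ Finset.range (j + 1), N i :=
      Finset.single_le_sum (f := N) (fun _ _ => Nat.zero_le _) (Finset.mem_range.2 (by omega))
    have h2 : (∑ i ∈ Finset.range (j + 1), N i) + j ≤ n := hgn
    omega
  obtain ⟨c, hc⟩ := block hg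
  have hes := e_strict hg
  obtain ⟨A2, hA2, hinj2⟩ := hsel c (by
    intro i
    apply hfin
    apply (Set.finite_lt_nat (e g (i + 1))).subset
    intro n hn
    rw [Set.mem_preimage, Set.mem_singleton_iff] at hn
    have := (hc n).2
    rw [hn] at this
    exact this)
  have hpar : ∃ E ∈ 𝒰, ∀ m ∈ E, ∀ n ∈ E, (Even (c m) ↔ Even (c n)) := by
    rcases Ultrafilter.mem_or_compl_mem 𝒰 {n | Even (c n)} with h | h
    · exact ⟨_, h, fun m hm n hn => ⟨fun _ => hn, fun _ => hm⟩⟩
    · exact ⟨_, h, fun m hm n hn => ⟨fun h' => absurd h' hm, fun h' => absurd h' hn⟩⟩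
  obtain ⟨E, hE, hEp⟩ := hpar
  refine ⟨A1 ∩ (A2 ∩ E), Filter.inter_mem hA1 (Filter.inter_mem hA2 hE), ?_⟩
  rintro m ⟨hm1, hm2, hm3⟩ n ⟨hn1, hn2, hn3⟩ hmn
  have h1 : c m ≤ c n := by
    by_contra hlt
    rw [not_le] at hlt
    have h2 : e g (c n + 1) ≤ e g (c m) := hes.monotone hlt
    have h3 := (hc m).1
    have h4 := (hc n).2
    omega
  have h2 : c m ≠ c n := fun h => hmn.ne (hinj2 hm2 hn2 h)
  have h3 : c m + 2 ≤ c n := by
    have h4 : c m + 1 ≠ c n := by
      intro h
      have h5 := hEp m hm3 n hn3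
      rw [← h, Nat.even_add_one] at h5
      tauto
    omega
  have h4 : e g (c m + 2) ≤ e g (c n) := hes.monotone h3
  have h5 : e g (c m + 2) = g (e g (c m + 1)) + 1 := rfl
  have h6 := (hc n).1
  have h7 := (hc m).2
  exact hgN (e g (c m + 1)) m n h7.le hn1 (by omega)

end Pool.Agent.R286.UW
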