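import Pool.Agent.R286.UW.Stm

/-!
# FUNC and UPOP: functionals and operators on an ultrapower
-/

set_option autoImplicit false

open Filter Topology MeasureTheory
open scoped ENNReal

namespace Pool.Agent.R286.UW

namespace FuAux

variable {𝕜 : Type*} [RCLike 𝕜]

/-- factorization through a surjective linear map -/
theorem factor {V : Type*} [AddCommGroup V] [Module 𝕜 V] {Y : Type*} [NormedAddCommGroup Y]
    [NormedSpace 𝕜 Y] {Z : Type*} [NormedAddCommGroup Z] [NormedSpace 𝕜 Z] (ι : V →ₗ[𝕜] Y)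
    (hι : Function.Surjective ι) (L : V →ₗ[𝕜] Z) (M : ℝ) (h : ∀ x, ‖L x‖ ≤ M * ‖ι x‖) :
    ∃ Λ : Y →L[𝕜] Z, ∀ x, Λ (ι x) = L x := by
  have key : ∀ x x', ι x = ι x' → L x = L x' := by
    intro x x' hx
    have h1 := h (x - x')
    rw [map_sub, map_sub, hx, sub_self, norm_zero, mul_zero] at h1
    exact sub_eq_zero.1 (norm_le_zero_iff.1 h1)
  let g : Y → V := fun y => (hι y).choose
  have hg : ∀ y, ι (g y) = y := fun y => (hι y).choose_spec
  let Λ₀ : Y →ₗ[𝕜] Z :=
    { toFun := fun y => L (g y)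
      map_add' := by
        intro y y'
        rw [← map_add]
        exact key _ _ (by rw [hg, map_add, hg, hg])
      map_smul' := by
        intro c y
        rw [RingHom.id_apply, ← map_smul]
        exact key _ _ (by rw [hg, map_smul, hg]) }
  refine ⟨Λ₀.mkContinuous M (fun y => ?_), fun x => ?_⟩
  · have := h (g y)
    rw [hg] at this
    exact this
  · exact key _ _ (hg _)

/-- bounded scalar sequences converge along an ultrafilter -/
theorem lim_exists (𝒰 : Ultrafilter ℕ) (u : ℕ → 𝕜) (R : ℝ) (hu : ∀ n, ‖u n‖ ≤ R) :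
    ∃ l : 𝕜, Tendsto u (𝒰 : Filter ℕ) (𝓝 l) := by
  have hK : IsCompact (Metric.closedBall (0 : 𝕜) R) := isCompact_closedBall 0 R
  have h1 : ∀ n, u n ∈ Metric.closedBall (0 : 𝕜) R := fun n => by simpa using hu n
  obtain ⟨l, -, hl⟩ := hK.ultrafilter_le_nhds (𝒰.map u) (by
    rw [Ultrafilter.coe_map, le_principal_iff, mem_map]
    exact Filter.univ_mem' h1)
  exact ⟨l, hl⟩

end FuAux

open FuAux

theorem func {𝕜 : Type*} [RCLike 𝕜] {E : Type*} [NormedAddCommGroup E] [NormedSpace 𝕜 E]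
    {Y : Type*} [NormedAddCommGroup Y] [NormedSpace 𝕜 Y] : StFunc 𝕜 E Y := by
  intro 𝒰 ι hι φ M hM
  have hM0 : 0 ≤ M := (norm_nonneg _).trans (hM 0)
  have hlim : ∀ x : BS E, ∃ l : 𝕜, Tendsto (fun n => φ n (x n)) (𝒰 : Filter ℕ) (𝓝 l) := by
    intro x
    refine lim_exists 𝒰 _ (M * ‖x‖) (fun n => ?_)
    calc ‖φ n (x n)‖ ≤ ‖φ n‖ * ‖x n‖ := (φ n).le_opNorm _
      _ ≤ M * ‖x‖ := mul_le_mul (hM n) (lp.norm_apply_le_norm (by simp) x n) (norm_nonneg _) hM0
  choose l hl using hlim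
  let L : BS E →ₗ[𝕜] 𝕜 :=
    { toFun := l
      map_add' := by
        intro x y
        refine tendsto_nhds_unique (hl (x + y)) ?_
        refine ((hl x).add (hl y)).congr (fun n => ?_)
        simp
      map_smul' := by
        intro c x
        refine tendsto_nhds_unique (hl (c • x)) ?_
        refine ((hl x).const_mul c).congr (fun n => ?_)
        simp }
  obtain ⟨Λ, hΛ⟩ := factor ι hι.surj L M (fun x => by
    have h1 : Tendsto (fun n => ‖φ n (x n)‖) (𝒰 : Filter ℕ) (𝓝 ‖L x‖) := (hl x).norm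
    have h2 := (hι.norm x).const_mul M
    refine le_of_tendsto_of_tendsto' h1 h2 (fun n => ?_)
    exact ((φ n).le_opNorm _).trans (mul_le_mul_of_nonneg_right (hM n) (norm_nonneg _)))
  refine ⟨Λ, fun x => ?_⟩
  rw [hΛ x]
  exact hl x

theorem upop {𝕜 : Type*} [RCLike 𝕜] {E : Type*} [NormedAddCommGroup E] [NormedSpace 𝕜 E]
    {Y : Type*} [NormedAddCommGroup Y] [NormedSpace 𝕜 Y] : StUpop 𝕜 E Y := by
  intro 𝒰 ι hι T
  have hmem : ∀ x : BS E, Memℓp (fun n => T (x n)) ∞ := by
    intro x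
    refine memℓp_infty ⟨‖T‖ * ‖x‖, ?_⟩
    rintro _ ⟨n, rfl⟩
    exact (T.le_opNorm _).trans (mul_le_mul_of_nonneg_left
      (lp.norm_apply_le_norm (by simp) x n) (norm_nonneg _))
  let m : BS E → BS E := fun x => ⟨fun n => T (x n), hmem x⟩
  let L : BS E →ₗ[𝕜] Y :=
    { toFun := fun x => ι (m x)
      map_add' := by
        intro x y
        rw [← map_add]
        congr 1
        ext n
        show T ((x + y) n) = T (x n) + T (y n)
        simp
      map_smul' := by
        intro c x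
        rw [RingHom.id_apply, ← map_smul]
        congr 1
        ext n
        show T ((c • x) n) = c • T (x n)
        simp }
  obtain ⟨Λ, hΛ⟩ := factor ι hι.surj L ‖T‖ (fun x => by
    have h1 : Tendsto (fun n => ‖(m x) n‖) (𝒰 : Filter ℕ) (𝓝 ‖L x‖) := hι.norm (m x)
    have h2 := (hι.norm x).const_mul ‖T‖
    exact le_of_tendsto_of_tendsto' h1 h2 (fun n => T.le_opNorm _))
  refine ⟨Λ, fun x x' hx => ?_⟩
  rw [hΛ x]
  show ι (m x) = ι x'
  congr 1
  ext n
  exact (hx n).symm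

end Pool.Agent.R286.UW
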