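import Pool.Agent.R286.UW.Stm

/-!
# IID: independent uniform variables on `[0,1]`
-/

set_option autoImplicit false

open Filter Topology MeasureTheory ProbabilityTheory
open scoped ENNReal

namespace Pool.Agent.R286.UW

theorem iid : StIid := by
  let μ : Measure (ℕ → unitInterval) :=
    Measure.infinitePi (fun _ : ℕ => (volume : Measure unitInterval))
  obtain ⟨f, hf, hfμ⟩ := MeasureTheory.Measure.exists_measurable_map_eq μ
  have hU : ∀ n, Measurable (fun t => f t n) := fun n => (measurable_pi_apply n).comp hf
  have hm : ∀ n, (volume : Measure unitInterval).map (fun t => f t n) = volume := by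
    intro n
    have h1 : (volume : Measure unitInterval).map (fun t => f t n) =
        ((volume : Measure unitInterval).map f).map (fun x => x n) := by
      rw [Measure.map_map (measurable_pi_apply n) hf]
      rfl
    rw [h1, hfμ]
    exact Measure.infinitePi_map_eval (μ := fun _ : ℕ => (volume : Measure unitInterval)) n
  refine ⟨fun n t => f t n, hU, hm, ?_⟩
  rw [iIndepFun_iff_map_fun_eq_infinitePi_map hU]
  have h2 : (fun i => (volume : Measure unitInterval).map (fun t => f t i)) =
      fun _ => (volume : Measure unitInterval) := funext hm
  rw [h2]
  exact hfμ

end Pool.Agent.R286.UW
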