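import Pool.Agent.R286.UW.Stm

/-!
# IN: the rank one operator is in the WOT closure
-/

set_option autoImplicit false

open Filter Topology MeasureTheory
open scoped ENNReal

namespace Pool.Agent.R286.UW

namespace InAux

variable {𝕜 : Type*} [RCLike 𝕜] {E : Type*} [NormedAddCommGroup E] [NormedSpace 𝕜 E]
  {Y : Type*} [NormedAddCommGroup Y] [NormedSpace 𝕜 Y]

theorem func_bound {𝒰 : Ultrafilter ℕ} {ι : BS E →ₗ[𝕜] Y} (hι : IsUP 𝒰 ι)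
    (a : ℕ → E →L[𝕜] 𝕜) (M : ℝ) (ha : ∀ n, ‖a n‖ ≤ M) (Φ : Y →L[𝕜] 𝕜)
    (hΦ : ∀ x : BS E, Tendsto (fun n => a n (x n)) (𝒰 : Filter ℕ) (𝓝 (Φ (ι x)))) (y : Y) :
    ‖Φ y‖ ≤ M * ‖y‖ := by
  obtain ⟨x, rfl⟩ := hι.surj y
  refine le_of_tendsto_of_tendsto' (hΦ x).norm ((hι.norm x).const_mul M) (fun n => ?_)
  exact ((a n).le_opNorm _).trans (mul_le_mul_of_nonneg_right (ha n) (norm_nonneg _))

theorem func_diff {𝒰 : Ultrafilter ℕ} {ι : BS E →ₗ[𝕜] Y} (hι : IsUP 𝒰 ι)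
    (a a' : ℕ → E →L[𝕜] 𝕜) (η : ℝ) (ha : ∀ n, ‖a n - a' n‖ ≤ η) (Φ Φ' : Y →L[𝕜] 𝕜)
    (hΦ : ∀ x : BS E, Tendsto (fun n => a n (x n)) (𝒰 : Filter ℕ) (𝓝 (Φ (ι x))))
    (hΦ' : ∀ x : BS E, Tendsto (fun n => a' n (x n)) (𝒰 : Filter ℕ) (𝓝 (Φ' (ι x)))) (y : Y) :
    ‖Φ y - Φ' y‖ ≤ η * ‖y‖ := by
  have := func_bound hι (fun n => a n - a' n) η ha (Φ - Φ') (fun x => ?_) y
  · simpa using this
  · have h := (hΦ x).sub (hΦ' x)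
    simpa using h

theorem iota_bound {𝒰 : Ultrafilter ℕ} {ι : BS E →ₗ[𝕜] Y} (hι : IsUP 𝒰 ι) (b : BS E) (M : ℝ)
    (hb : ∀ n, ‖b n‖ ≤ M) : ‖ι b‖ ≤ M :=
  le_of_tendsto' (hι.norm b) hb

end InAux

open InAux

theorem inn {𝕜 : Type*} [RCLike 𝕜] {E : Type*} [NormedAddCommGroup E] [NormedSpace 𝕜 E]
    {Y : Type*} [NormedAddCommGroup Y] [NormedSpace 𝕜 Y] (hf : StFunc 𝕜 E Y)
    (hs : StSot 𝕜 E Y) : StIn 𝕜 E Y := by
  classical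
  intro hE 𝒰 ι hι hsel a b hW Φ hΦ F ε hε
  obtain ⟨K, hK1, hK⟩ : ∃ K : ℝ, 1 ≤ K ∧ ∀ y ∈ F, ‖y.1‖ ≤ K ∧ ‖y.2‖ ≤ K := by
    refine ⟨1 + ∑ y ∈ F, (‖y.1‖ + ‖y.2‖), ?_, fun y hy => ?_⟩
    · have : 0 ≤ ∑ y ∈ F, (‖y.1‖ + ‖y.2‖) := Finset.sum_nonneg (fun y _ => by positivity)
      linarith
    · have h := Finset.single_le_sum (f := fun y : Y × (Y →L[𝕜] 𝕜) => ‖y.1‖ + ‖y.2‖)
        (fun y _ => by positivity) hy
      have h1 : 0 ≤ ‖y.1‖ := norm_nonneg _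
      have h2 : 0 ≤ ‖y.2‖ := norm_nonneg _
      have h' : ‖y.1‖ + ‖y.2‖ ≤ ∑ y ∈ F, (‖y.1‖ + ‖y.2‖) := h
      constructor <;> linarith
  have hK0 : 0 < K := by linarith
  set η : ℝ := min 1 (ε / (12 * K * K)) with hη
  have hη0 : 0 < η := by positivity
  have hη1 : η ≤ 1 := min_le_left _ _
  have hη2 : η * (12 * K * K) ≤ ε := by
    have := min_le_right 1 (ε / (12 * K * K))
    rw [← hη, le_div_iff₀ (by positivity)] at this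
    exact this
  obtain ⟨C, a', b₀, hTE, hab⟩ := hW.approx η hη0
  have ha' : ∀ n, ‖a' n‖ ≤ 2 := by
    intro n
    have h1 := hW.bda n
    have h2 := (hab n).1
    have h3 : ‖a' n‖ ≤ ‖a n‖ + ‖a n - a' n‖ := by
      have := norm_sub_le (a n) (a n - a' n)
      rwa [sub_sub_cancel] at this
    linarith
  have hb₀ : ∀ n, ‖b₀ n‖ ≤ 2 := by
    intro n
    have h1 := hW.bdb n
    have h2 := (hab n).2
    have h3 : ‖b₀ n‖ ≤ ‖b n‖ + ‖b n - b₀ n‖ := by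
      have := norm_sub_le (b n) (b n - b₀ n)
      rwa [sub_sub_cancel] at this
    linarith
  have hbm : Memℓp b₀ ∞ := by
    refine memℓp_infty ⟨2, ?_⟩
    rintro _ ⟨n, rfl⟩
    exact hb₀ n
  let b' : BS E := ⟨b₀, hbm⟩
  obtain ⟨Φ', hΦ'⟩ := hf 𝒰 ι hι a' 2 ha'
  obtain ⟨T, T', hT, hTT⟩ := hs hE 𝒰 ι hι hsel a' b' C 2 hTE ha' Φ' hΦ' (F.image Prod.fst)
    (ε / (2 * K)) (by positivity)
  refine ⟨T, T', hT, fun y hy => ?_⟩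
  obtain ⟨hy1, hy2⟩ := hK y hy
  have e1 : ‖Φ y.1 - Φ' y.1‖ ≤ η * ‖y.1‖ :=
    func_diff hι a a' η (fun n => (hab n).1) Φ Φ' hΦ hΦ' y.1
  have e2 : ‖Φ' y.1‖ ≤ 2 * ‖y.1‖ := func_bound hι a' 2 ha' Φ' hΦ' y.1
  have e3 : ‖ι b‖ ≤ 1 := iota_bound hι b 1 hW.bdb
  have e4 : ‖ι b - ι b'‖ ≤ η := by
    rw [← map_sub]
    exact iota_bound hι (b - b') η (fun n => (hab n).2)
  have e5 : ‖Φ' y.1 • ι b' - T' y.1‖ < ε / (2 * K) :=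
    hTT y.1 (Finset.mem_image_of_mem _ hy)
  have e6 : ‖Φ y.1 • ι b - Φ' y.1 • ι b'‖ ≤ 3 * η * K := by
    have h1 : Φ y.1 • ι b - Φ' y.1 • ι b' =
        (Φ y.1 - Φ' y.1) • ι b + Φ' y.1 • (ι b - ι b') := by
      rw [sub_smul, smul_sub]; abel
    rw [h1]
    refine (norm_add_le _ _).trans ?_
    rw [norm_smul, norm_smul]
    have g1 : ‖Φ y.1 - Φ' y.1‖ * ‖ι b‖ ≤ η * K * 1 :=
      mul_le_mul (e1.trans (mul_le_mul_of_nonneg_left hy1 hη0.le)) e3 (norm_nonneg _)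
        (by positivity)
    have g2 : ‖Φ' y.1‖ * ‖ι b - ι b'‖ ≤ 2 * K * η :=
      mul_le_mul (e2.trans (mul_le_mul_of_nonneg_left hy1 (by norm_num))) e4 (norm_nonneg _)
        (by positivity)
    linarith
  have e7 : ‖ContinuousLinearMap.smulRight Φ (ι b) y.1 - T' y.1‖ ≤ 3 * η * K + ε / (2 * K) := by
    rw [ContinuousLinearMap.smulRight_apply]
    have h1 : Φ y.1 • ι b - T' y.1 =
        (Φ y.1 • ι b - Φ' y.1 • ι b') + (Φ' y.1 • ι b' - T' y.1) := by abel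
    rw [h1]
    exact (norm_add_le _ _).trans (add_le_add e6 e5.le)
  calc ‖y.2 (ContinuousLinearMap.smulRight Φ (ι b) y.1 - T' y.1)‖
      ≤ ‖y.2‖ * ‖ContinuousLinearMap.smulRight Φ (ι b) y.1 - T' y.1‖ := y.2.le_opNorm _
    _ ≤ K * (3 * η * K + ε / (2 * K)) :=
        mul_le_mul hy2 e7 (norm_nonneg _) hK0.le
    _ = (η * (12 * K * K)) / 4 + ε / 2 := by field_simp; ring
    _ < ε := by linarith

end Pool.Agent.R286.UW
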