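import Pool.Agent.R286.UW.Stm

/-! LPA (helper451) -/

set_option autoImplicit false

open Filter Topology MeasureTheory
open scoped ENNReal

namespace Pool.Agent.R286.UW

namespace LpAAux

lemma bm_sum (t : ℕ → ℝ) (h : ℕ → unitInterval → ℝ) (F : Finset ℕ) (hh : ∀ n, BM (h n)) :
    BM (fun x => ∑ n ∈ F, t n * h n x) := by
  choose hm B hB using hh
  refine ⟨?_, ∑ n ∈ F, |t n| * B n, fun x => ?_⟩
  · exact Finset.measurable_fun_sum F fun n _ => (hm n).const_mul (t n)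
  · refine le_trans (Finset.abs_sum_le_sum_abs _ _) (Finset.sum_le_sum fun n _ => ?_)
    rw [abs_mul]
    exact mul_le_mul_of_nonneg_left (hB n x) (abs_nonneg _)

lemma norm_I_le {𝕜 : Type*} [RCLike 𝕜] : ‖(RCLike.I : 𝕜)‖ ≤ 1 := by
  by_cases h : (RCLike.I : 𝕜) = 0
  · rw [h, norm_zero]; norm_num
  · exact (RCLike.norm_I_of_ne_zero h).le

lemma cplx {𝕜 : Type*} [RCLike 𝕜] {V : Type*} [NormedAddCommGroup V] [NormedSpace 𝕜 V]
    (s M : ℝ) (hM : 0 ≤ M) (e : (unitInterval → ℝ) → V) (hn : ∀ h, BM h → ‖e h‖ ≤ nrm s h)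
    (hs : ∀ (t : ℕ → ℝ) (h : ℕ → unitInterval → ℝ) (F : Finset ℕ), (∀ n, BM (h n)) →
      e (fun x => ∑ n ∈ F, t n * h n x) = ∑ n ∈ F, (t n : 𝕜) • e (h n))
    (h : ℕ → unitInterval → ℝ) (hh : ∀ n, BM (h n))
    (hup : ∀ (t : ℕ → ℝ) (F : Finset ℕ),
      nrm s (fun x => ∑ n ∈ F, t n * h n x) ≤ M * Real.sqrt (∑ n ∈ F, t n ^ 2))
    (t : ℕ → 𝕜) (F : Finset ℕ) :
    ‖∑ n ∈ F, t n • e (h n)‖ ≤ 2 * M * Real.sqrt (∑ n ∈ F, ‖t n‖ ^ 2) := by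
  have h1 : ∀ t' : ℕ → ℝ, (∀ n, t' n ^ 2 ≤ ‖t n‖ ^ 2) →
      ‖∑ n ∈ F, (t' n : 𝕜) • e (h n)‖ ≤ M * Real.sqrt (∑ n ∈ F, ‖t n‖ ^ 2) := by
    intro t' ht'
    rw [← hs t' h F hh]
    refine le_trans (hn _ (bm_sum t' h F hh)) (le_trans (hup t' F) ?_)
    exact mul_le_mul_of_nonneg_left
      (Real.sqrt_le_sqrt (Finset.sum_le_sum fun n _ => ht' n)) hM
  have h2 : ∑ n ∈ F, t n • e (h n) = ∑ n ∈ F, ((RCLike.re (t n) : ℝ) : 𝕜) • e (h n)
      + (RCLike.I : 𝕜) • ∑ n ∈ F, ((RCLike.im (t n) : ℝ) : 𝕜) • e (h n) := by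
    rw [Finset.smul_sum, ← Finset.sum_add_distrib]
    apply Finset.sum_congr rfl
    intro n _
    rw [smul_smul, ← add_smul]
    congr 1
    conv_lhs => rw [← RCLike.re_add_im (t n)]
    ring
  rw [h2]
  have h3 := h1 (fun n => RCLike.re (t n)) (fun n => by
    rw [← sq_abs]
    exact pow_le_pow_left₀ (abs_nonneg _) (RCLike.abs_re_le_norm _) 2)
  have h4 := h1 (fun n => RCLike.im (t n)) (fun n => by
    rw [← sq_abs]
    exact pow_le_pow_left₀ (abs_nonneg _) (RCLike.abs_im_le_norm _) 2)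
  have h5 : ‖(RCLike.I : 𝕜) • ∑ n ∈ F, ((RCLike.im (t n) : ℝ) : 𝕜) • e (h n)‖
      ≤ M * Real.sqrt (∑ n ∈ F, ‖t n‖ ^ 2) := by
    rw [norm_smul]
    calc ‖(RCLike.I : 𝕜)‖ * ‖∑ n ∈ F, ((RCLike.im (t n) : ℝ) : 𝕜) • e (h n)‖
        ≤ 1 * ‖∑ n ∈ F, ((RCLike.im (t n) : ℝ) : 𝕜) • e (h n)‖ :=
          mul_le_mul_of_nonneg_right norm_I_le (norm_nonneg _)
      _ = ‖∑ n ∈ F, ((RCLike.im (t n) : ℝ) : 𝕜) • e (h n)‖ := one_mul _
      _ ≤ _ := h4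
  refine le_trans (norm_add_le _ _) ?_
  linarith

end LpAAux

open LpAAux

theorem lpA {𝕜 : Type*} [RCLike 𝕜] (hS : StSys) (hB : StBox 𝕜) : StLpA 𝕜 := by
  intro p _ hp2 hpt
  have hq : (2 : ℝ) < p.toReal := by
    have h1 := (ENNReal.toReal_lt_toReal (by simp) hpt.ne).mpr hp2
    simpa using h1
  obtain ⟨C, β, ρ, f, g, hC, hβ0, hβ1, hSys⟩ := hS p.toReal hq
  obtain ⟨el, fn, hBox⟩ := hB p (lt_trans (by norm_num) hp2) hpt
  have hC0 : 0 ≤ C := by linarith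
  have hcard : ∀ (F : Finset ℕ) (θ : ℕ → ℝ), (∀ n, θ n = 1 ∨ θ n = -1) →
      ∑ n ∈ F, θ n ^ 2 = F.card := by
    intro F θ hθ
    rw [Finset.sum_congr rfl (g := fun _ => (1 : ℝ)) (fun n _ => by
      rcases hθ n with h | h <;> rw [h] <;> norm_num)]
    simp
  refine ⟨2 * C, β, fun k n => fn (g k n), fun n => el (ρ n), fun k n => el (f k n),
    fun n => fn (ρ n), by linarith, hβ0, hβ1, ?_⟩
  refine ⟨?_, ?_, ?_, ?_, ?_, ?_, ?_, ?_, ?_, ?_⟩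
  · intro k n
    exact le_trans (hBox.nfn _ (hSys.bmg k n)) (hSys.ng k n)
  · intro n
    exact le_trans (hBox.nel _ (hSys.bmρ n)) (hSys.nρ n)
  · intro k n
    exact le_trans (hBox.nel _ (hSys.bmf k n)) (hSys.nf k n)
  · intro n
    exact le_trans (hBox.nfn _ (hSys.bmρ n)) (hSys.nρ' n)
  · intro k
    obtain ⟨M, hM, hup⟩ := hSys.upg k
    refine ⟨2 * M, by linarith, fun t F => ?_⟩
    exact cplx _ M hM fn hBox.nfn hBox.sfn (fun n => g k n) (hSys.bmg k) hup t F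
  · intro t F
    exact cplx _ C hC0 el hBox.nel hBox.sel ρ hSys.bmρ hSys.upρ t F
  · intro F θ hθ
    have h1 := hBox.sfn θ ρ F hSys.bmρ
    show ‖∑ n ∈ F, (θ n : 𝕜) • fn (ρ n)‖ ≤ _
    rw [← h1]
    refine le_trans (hBox.nfn _ (bm_sum θ ρ F hSys.bmρ)) (le_trans (hSys.upρ' θ F) ?_)
    rw [hcard F θ hθ]
    have := Real.sqrt_nonneg (F.card : ℝ)
    nlinarith
  · intro k
    obtain ⟨N₀, hN₀⟩ := hSys.upf k
    refine ⟨N₀, fun F θ hF hθ => ?_⟩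
    have h1 := hBox.sel θ (fun n => f k n) F (hSys.bmf k)
    show ‖∑ n ∈ F, (θ n : 𝕜) • el (f k n)‖ ≤ _
    rw [← h1]
    refine le_trans (hBox.nel _ (bm_sum θ (fun n => f k n) F (hSys.bmf k)))
      (le_trans (hN₀ F θ hF hθ) ?_)
    have h2 : 0 ≤ C * β ^ (k + 1) * Real.sqrt F.card := by positivity
    linarith
  · intro n
    show fn (ρ n) (el (ρ n)) = 1
    rw [hBox.pair _ _ (hSys.bmρ n) (hSys.bmρ n), hSys.pairρ n]
    simp
  · intro j k n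
    show fn (g j n) (el (f k n)) = _
    rw [hBox.pair _ _ (hSys.bmg j n) (hSys.bmf k n)]
    have h1 : ∫ t, g j n t * f k n t = ∫ t, f k n t * g j n t := by
      congr 1
      funext t
      ring
    rw [h1, hSys.pair k j n]
    by_cases h : j = k
    · rw [if_pos h, if_pos h.symm]; simp
    · rw [if_neg h, if_neg (fun h' => h h'.symm)]; simp

end Pool.Agent.R286.UW
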