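import Mathlib

/-!
# WOT closures of ultrapower operators on `L^p` (MP_7518b9_an): definitions and statements

For `1 < p < ∞`, `p ≠ 2` and every selective ultrafilter there is an operator in the WOT closure of
`{T^𝒰}` which is in no WOT closure of a bounded part `{T^𝒰 : ‖T‖ ≤ r}`. Proofs: see `notes.md`.
-/

set_option autoImplicit false

open Filter Topology MeasureTheory
open scoped ENNReal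

namespace Pool.Agent.R286.UW

/-- selective (Ramsey) ultrafilters on `ℕ`; a partition is given by the labels `c` of its pieces -/
def Selective (𝒰 : Ultrafilter ℕ) : Prop :=
  (∀ n : ℕ, ({n} : Set ℕ) ∉ 𝒰) ∧
    ∀ c : ℕ → ℕ, (∀ j, c ⁻¹' {j} ∉ 𝒰) → ∃ A ∈ 𝒰, Set.InjOn c A

/-- bounded sequences in `E` -/
abbrev BS (E : Type*) [NormedAddCommGroup E] := lp (fun _ : ℕ => E) ∞

section general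

variable {𝕜 : Type*} [RCLike 𝕜] {E : Type*} [NormedAddCommGroup E] [NormedSpace 𝕜 E]
  {Y : Type*} [NormedAddCommGroup Y] [NormedSpace 𝕜 Y]

/-- `ι` realizes `Y` as the ultrapower of `E` -/
structure IsUP (𝒰 : Ultrafilter ℕ) (ι : BS E →ₗ[𝕜] Y) : Prop where
  surj : Function.Surjective ι
  norm : ∀ x : BS E, Tendsto (fun n => ‖x n‖) (𝒰 : Filter ℕ) (𝓝 ‖ι x‖)

/-- `T'` is the ultrapower of the operator `T` -/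
def IsUpOp (ι : BS E →ₗ[𝕜] Y) (T : E →L[𝕜] E) (T' : Y →L[𝕜] Y) : Prop :=
  ∀ x x' : BS E, (∀ n, x' n = T (x n)) → T' (ι x) = ι x'

/-- the WOT closure of the ultrapower operators -/
def InA (ι : BS E →ₗ[𝕜] Y) (S : Y →L[𝕜] Y) : Prop :=
  ∀ F : Finset (Y × (Y →L[𝕜] 𝕜)), ∀ ε : ℝ, 0 < ε → ∃ (T : E →L[𝕜] E) (T' : Y →L[𝕜] Y),
    IsUpOp ι T T' ∧ ∀ y ∈ F, ‖y.2 (S y.1 - T' y.1)‖ < ε

/-- the WOT closure of the ultrapower operators of norm at most `r` -/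
def InAr (ι : BS E →ₗ[𝕜] Y) (r : ℝ) (S : Y →L[𝕜] Y) : Prop :=
  ∀ F : Finset (Y × (Y →L[𝕜] 𝕜)), ∀ ε : ℝ, 0 < ε → ∃ (T : E →L[𝕜] E) (T' : Y →L[𝕜] Y),
    ‖T‖ ≤ r ∧ IsUpOp ι T T' ∧ ∀ y ∈ F, ‖y.2 (S y.1 - T' y.1)‖ < ε

/-- upper 2-estimates -/
structure TwoEst (C : ℝ) (a : ℕ → E →L[𝕜] 𝕜) (b : ℕ → E) : Prop where
  nonneg : 0 ≤ C
  upa : ∀ (t : ℕ → 𝕜) (F : Finset ℕ),
    ‖∑ m ∈ F, t m • a m‖ ≤ C * Real.sqrt (∑ m ∈ F, ‖t m‖ ^ 2)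
  upb : ∀ (t : ℕ → 𝕜) (F : Finset ℕ),
    ‖∑ m ∈ F, t m • b m‖ ≤ C * Real.sqrt (∑ m ∈ F, ‖t m‖ ^ 2)

/-- witness for the main result -/
structure Witness (a : ℕ → E →L[𝕜] 𝕜) (b : ℕ → E) : Prop where
  bda : ∀ n, ‖a n‖ ≤ 1
  bdb : ∀ n, ‖b n‖ ≤ 1
  approx : ∀ η : ℝ, 0 < η → ∃ (C : ℝ) (a' : ℕ → E →L[𝕜] 𝕜) (b' : ℕ → E), TwoEst C a' b' ∧
    ∀ n, ‖a n - a' n‖ ≤ η ∧ ‖b n - b' n‖ ≤ η
  test : ∀ R : ℝ, 0 < R → ∃ (c : ℝ) (N₀ : ℕ) (y : ℕ → E) (φ : ℕ → E →L[𝕜] 𝕜), 0 < c ∧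
    (∀ n, ‖y n‖ ≤ 1 ∧ ‖φ n‖ ≤ 1) ∧ (∀ n, a n (y n) * φ n (b n) = (c : 𝕜)) ∧
    ∀ (F : Finset ℕ) (θ : ℕ → ℝ), N₀ ≤ F.card → (∀ n, θ n = 1 ∨ θ n = -1) →
      R * (‖∑ n ∈ F, (θ n : 𝕜) • y n‖ * ‖∑ n ∈ F, (θ n : 𝕜) • φ n‖) ≤ c * F.card

end general

/-- DIAG: diagonal property of selective ultrafilters -/
def StDiag : Prop := ∀ 𝒰 : Ultrafilter ℕ, Selective 𝒰 → ∀ B : ℕ → Set ℕ, (∀ j, B j ∈ 𝒰) →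
  ∃ A ∈ 𝒰, ∀ m ∈ A, ∀ n ∈ A, m < n → n ∈ B m

/-- SEL: selection of a set with small off-diagonal row sums -/
def StSel : Prop := ∀ 𝒰 : Ultrafilter ℕ, Selective 𝒰 → ∀ (c : ℕ → ℕ → ℝ) (C : ℝ),
  (∀ n m, 0 ≤ c n m) → (∀ (n : ℕ) (F : Finset ℕ), ∑ m ∈ F, c n m ≤ C) → ∀ ε : ℝ, 0 < ε →
    ∃ A ∈ 𝒰, ∀ n ∈ A, ∀ F : Finset ℕ, (∀ m ∈ F, m ∈ A ∧ m ≠ n) → ∑ m ∈ F, c n m ≤ ε

section statements

variable (𝕜 : Type*) [RCLike 𝕜] (E : Type*) [NormedAddCommGroup E] [NormedSpace 𝕜 E]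
  (Y : Type*) [NormedAddCommGroup Y] [NormedSpace 𝕜 Y]

/-- OP: the operators `x ↦ ∑_{m ∈ A} a_m(x) b_m` -/
def StOp : Prop := CompleteSpace E → ∀ (a : ℕ → E →L[𝕜] 𝕜) (b : ℕ → E) (C : ℝ), TwoEst C a b →
  (∀ (x : E) (F : Finset ℕ), ∑ m ∈ F, ‖a m x‖ ^ 2 ≤ (C * ‖x‖) ^ 2) ∧
  ∀ A : Set ℕ, ∃ T : E →L[𝕜] E, ∀ (x : E), ∀ n ∈ A, ∀ ε : ℝ, 0 ≤ ε →
    (∀ F : Finset ℕ, (∀ m ∈ F, m ∈ A ∧ m ≠ n) → ∑ m ∈ F, ‖a m x‖ ^ 2 ≤ ε) →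
      ‖T x - a n x • b n‖ ≤ C * Real.sqrt ε

/-- FUNC: functionals on the ultrapower given by bounded sequences of functionals -/
def StFunc : Prop := ∀ (𝒰 : Ultrafilter ℕ) (ι : BS E →ₗ[𝕜] Y), IsUP 𝒰 ι →
  ∀ (φ : ℕ → E →L[𝕜] 𝕜) (M : ℝ), (∀ n, ‖φ n‖ ≤ M) → ∃ Φ : Y →L[𝕜] 𝕜,
    ∀ x : BS E, Tendsto (fun n => φ n (x n)) (𝒰 : Filter ℕ) (𝓝 (Φ (ι x)))

/-- UPOP: existence of ultrapower operators -/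
def StUpop : Prop := ∀ (𝒰 : Ultrafilter ℕ) (ι : BS E →ₗ[𝕜] Y), IsUP 𝒰 ι →
  ∀ T : E →L[𝕜] E, ∃ T' : Y →L[𝕜] Y, IsUpOp ι T T'

/-- SOT: approximation in the strong operator topology -/
def StSot : Prop := CompleteSpace E → ∀ (𝒰 : Ultrafilter ℕ) (ι : BS E →ₗ[𝕜] Y), IsUP 𝒰 ι →
  Selective 𝒰 → ∀ (a : ℕ → E →L[𝕜] 𝕜) (b : BS E) (C M : ℝ), TwoEst C a (fun n => b n) →
    (∀ n, ‖a n‖ ≤ M) → ∀ Φ : Y →L[𝕜] 𝕜,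
      (∀ x : BS E, Tendsto (fun n => a n (x n)) (𝒰 : Filter ℕ) (𝓝 (Φ (ι x)))) →
      ∀ (F : Finset Y) (ε : ℝ), 0 < ε → ∃ (T : E →L[𝕜] E) (T' : Y →L[𝕜] Y), IsUpOp ι T T' ∧
        ∀ y ∈ F, ‖Φ y • ι b - T' y‖ < ε

/-- IN: the rank one operator is in the WOT closure -/
def StIn : Prop := CompleteSpace E → ∀ (𝒰 : Ultrafilter ℕ) (ι : BS E →ₗ[𝕜] Y), IsUP 𝒰 ι →
  Selective 𝒰 → ∀ (a : ℕ → E →L[𝕜] 𝕜) (b : BS E), Witness a (fun n => b n) →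
    ∀ Φ : Y →L[𝕜] 𝕜, (∀ x : BS E, Tendsto (fun n => a n (x n)) (𝒰 : Filter ℕ) (𝓝 (Φ (ι x)))) →
      InA ι (ContinuousLinearMap.smulRight Φ (ι b))

/-- NOTIN: it is in no WOT closure of a bounded part -/
def StNotin : Prop := ∀ (𝒰 : Ultrafilter ℕ) (ι : BS E →ₗ[𝕜] Y), IsUP 𝒰 ι →
  (∀ n : ℕ, ({n} : Set ℕ) ∉ 𝒰) → ∀ (a : ℕ → E →L[𝕜] 𝕜) (b : BS E), Witness a (fun n => b n) →
    ∀ Φ : Y →L[𝕜] 𝕜, (∀ x : BS E, Tendsto (fun n => a n (x n)) (𝒰 : Filter ℕ) (𝓝 (Φ (ι x)))) →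
      ∀ r : ℝ, ¬ InAr ι r (ContinuousLinearMap.smulRight Φ (ι b))

end statements

section concrete

variable (𝕜 : Type*) [RCLike 𝕜] (E : Type*) [NormedAddCommGroup E] [NormedSpace 𝕜 E]

/-- the subspace of bounded sequences with `lim_𝒰 ‖x_n‖ = 0` -/
def nullSub (𝒰 : Ultrafilter ℕ) : Submodule 𝕜 (BS E) where
  carrier := {x | Tendsto (fun n => ‖x n‖) (𝒰 : Filter ℕ) (𝓝 0)}
  zero_mem' := by simp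
  add_mem' := by
    intro x y hx hy
    have h := hx.add hy
    rw [add_zero] at h
    exact squeeze_zero (fun n => norm_nonneg _) (fun n => norm_add_le _ _) h
  smul_mem' := by
    intro c x hx
    have h := hx.const_mul ‖c‖
    rw [mul_zero] at h
    simpa [norm_smul] using h

theorem nullSub_closed (𝒰 : Ultrafilter ℕ) : IsClosed (nullSub 𝕜 E 𝒰 : Set (BS E)) := by
  rw [← isSeqClosed_iff_isClosed]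
  intro u x hu hx
  rw [SetLike.mem_coe]
  show Tendsto (fun n => ‖x n‖) (𝒰 : Filter ℕ) (𝓝 0)
  rw [Metric.tendsto_nhds]
  intro ε hε
  obtain ⟨k, hk⟩ := ((Metric.tendsto_nhds.1 hx) (ε / 2) (half_pos hε)).exists
  have h1 : Tendsto (fun n => ‖u k n‖) (𝒰 : Filter ℕ) (𝓝 0) := hu k
  filter_upwards [(Metric.tendsto_nhds.1 h1) (ε / 2) (half_pos hε)] with n hn
  rw [dist_zero_right, norm_norm] at hn ⊢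
  have h2 : ‖u k n - x n‖ ≤ ‖u k - x‖ := by
    have := lp.norm_apply_le_norm (p := ∞) (by simp) (u k - x) n
    simpa using this
  rw [dist_eq_norm] at hk
  calc ‖x n‖ = ‖u k n - (u k n - x n)‖ := by congr 1; abel
    _ ≤ ‖u k n‖ + ‖u k n - x n‖ := norm_sub_le _ _
    _ < ε := by linarith

instance (𝒰 : Ultrafilter ℕ) : IsClosed (nullSub 𝕜 E 𝒰 : Set (BS E)) := nullSub_closed 𝕜 E 𝒰

/-- the ultrapower of `E` -/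
abbrev UPow (𝒰 : Ultrafilter ℕ) := BS E ⧸ nullSub 𝕜 E 𝒰

/-- UPX: the quotient is an ultrapower (the quotient norm is `lim_𝒰 ‖x_n‖`) -/
def StUpx : Prop := ∀ 𝒰 : Ultrafilter ℕ, IsUP 𝒰 ((nullSub 𝕜 E 𝒰).mkQ)

end concrete

section unit

/-- bounded measurable functions on `[0,1]` -/
def BM (h : unitInterval → ℝ) : Prop := Measurable h ∧ ∃ B, ∀ t, |h t| ≤ B

/-- `L^s` norms -/
noncomputable def nrm (s : ℝ) (h : unitInterval → ℝ) : ℝ := (∫ t, |h t| ^ s) ^ (1 / s)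

/-- IID: independent uniform variables on `[0,1]` -/
def StIid : Prop := ∃ U : ℕ → unitInterval → unitInterval, (∀ n, Measurable (U n)) ∧
  (∀ n, (volume : Measure unitInterval).map (U n) = volume) ∧
    ProbabilityTheory.iIndepFun U (volume : Measure unitInterval)

/-- MOM: moments from exponential moments -/
def StMom : Prop := ∀ q : ℝ, 1 ≤ q → ∃ C : ℝ, 1 ≤ C ∧ ∀ (X : ℕ → unitInterval → ℝ) (v : ℕ → ℝ)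
  (F : Finset ℕ), (∀ n, BM (X n)) → ProbabilityTheory.iIndepFun X (volume : Measure unitInterval) →
    (∀ n ∈ F, ∫ t, Real.exp (X n t) ≤ Real.exp (v n)) →
    (∀ n ∈ F, ∫ t, Real.exp (-X n t) ≤ Real.exp (v n)) → ∑ n ∈ F, v n ≤ 1 →
      nrm q (fun t => ∑ n ∈ F, X n t) ≤ C

/-- the one variable functions -/
structure OneVar (q β : ℝ) (r : unitInterval → ℝ) (f g : ℕ → unitInterval → ℝ)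
    (H : ℕ → ℝ) : Prop where
  bmr : BM r
  bmf : ∀ k, BM (f k)
  bmg : ∀ k, BM (g k)
  r1 : ∀ t, r t = 1 ∨ r t = -1
  expr : ∀ τ : ℝ, ∫ t, Real.exp (τ * r t) = Real.cosh τ
  intr : ∫ t, r t = 0
  intg : ∀ k, ∫ t, g k t = 0
  nf : ∀ k, ∫ t, |f k t| ^ q = 1
  ng : ∀ k, ∫ t, |g k t| ^ (q / (q - 1)) = 1
  pair : ∀ j k, ∫ t, f j t * g k t = if j = k then 1 else 0
  Hpos : ∀ k, 0 < H k
  expf : ∀ k, ∀ τ : ℝ, |τ| * H k ≤ 1 →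
    ∫ t, Real.exp (τ * f k t) ≤ 1 + τ ^ 2 * (β ^ (k + 1)) ^ 2

/-- ONE -/
def StOne : Prop := ∀ q : ℝ, 2 < q → ∃ (β : ℝ) (r : unitInterval → ℝ)
  (f g : ℕ → unitInterval → ℝ) (H : ℕ → ℝ), 0 < β ∧ β < 1 ∧ OneVar q β r f g H

/-- systems of functions on `[0,1]` -/
structure Sys (q C β : ℝ) (ρ : ℕ → unitInterval → ℝ) (f g : ℕ → ℕ → unitInterval → ℝ) :
    Prop where
  bmρ : ∀ n, BM (ρ n)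
  bmf : ∀ k n, BM (f k n)
  bmg : ∀ k n, BM (g k n)
  nρ : ∀ n, nrm q (ρ n) ≤ 1
  nρ' : ∀ n, nrm (q / (q - 1)) (ρ n) ≤ 1
  nf : ∀ k n, nrm q (f k n) ≤ 1
  ng : ∀ k n, nrm (q / (q - 1)) (g k n) ≤ 1
  upρ : ∀ (t : ℕ → ℝ) (F : Finset ℕ),
    nrm q (fun x => ∑ n ∈ F, t n * ρ n x) ≤ C * Real.sqrt (∑ n ∈ F, t n ^ 2)
  upρ' : ∀ (t : ℕ → ℝ) (F : Finset ℕ),
    nrm (q / (q - 1)) (fun x => ∑ n ∈ F, t n * ρ n x) ≤ C * Real.sqrt (∑ n ∈ F, t n ^ 2)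
  upg : ∀ k, ∃ M : ℝ, 0 ≤ M ∧ ∀ (t : ℕ → ℝ) (F : Finset ℕ),
    nrm (q / (q - 1)) (fun x => ∑ n ∈ F, t n * g k n x) ≤ M * Real.sqrt (∑ n ∈ F, t n ^ 2)
  upf : ∀ k, ∃ N₀ : ℕ, ∀ (F : Finset ℕ) (θ : ℕ → ℝ), N₀ ≤ F.card → (∀ n, θ n = 1 ∨ θ n = -1) →
    nrm q (fun x => ∑ n ∈ F, θ n * f k n x) ≤ C * β ^ (k + 1) * Real.sqrt F.card
  pairρ : ∀ n, ∫ t, ρ n t * ρ n t = 1
  pair : ∀ j k n, ∫ t, f j n t * g k n t = if j = k then 1 else 0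

/-- SYS -/
def StSys : Prop := ∀ q : ℝ, 2 < q → ∃ (C β : ℝ) (ρ : ℕ → unitInterval → ℝ)
  (f g : ℕ → ℕ → unitInterval → ℝ), 1 ≤ C ∧ 0 < β ∧ β < 1 ∧ Sys q C β ρ f g

end unit

section lp

variable (𝕜 : Type*) [RCLike 𝕜]

/-- elements and functionals of `L^p` given by bounded measurable functions -/
structure Box (p : ℝ≥0∞) [Fact (1 ≤ p)]
    (el : (unitInterval → ℝ) → Lp 𝕜 p (volume : Measure unitInterval))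
    (fn : (unitInterval → ℝ) → (Lp 𝕜 p (volume : Measure unitInterval) →L[𝕜] 𝕜)) : Prop where
  nel : ∀ h, BM h → ‖el h‖ ≤ nrm p.toReal h
  nfn : ∀ h, BM h → ‖fn h‖ ≤ nrm (p.toReal / (p.toReal - 1)) h
  pair : ∀ h h', BM h → BM h' → fn h (el h') = ((∫ t, h t * h' t : ℝ) : 𝕜)
  sel : ∀ (t : ℕ → ℝ) (h : ℕ → unitInterval → ℝ) (F : Finset ℕ), (∀ n, BM (h n)) →
    el (fun x => ∑ n ∈ F, t n * h n x) = ∑ n ∈ F, (t n : 𝕜) • el (h n)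
  sfn : ∀ (t : ℕ → ℝ) (h : ℕ → unitInterval → ℝ) (F : Finset ℕ), (∀ n, BM (h n)) →
    fn (fun x => ∑ n ∈ F, t n * h n x) = ∑ n ∈ F, (t n : 𝕜) • fn (h n)

/-- BOX -/
def StBox : Prop := ∀ (p : ℝ≥0∞) [Fact (1 ≤ p)], 1 < p → p < ∞ → ∃ el fn, Box 𝕜 p el fn

end lp

section data

variable {𝕜 : Type*} [RCLike 𝕜] {E : Type*} [NormedAddCommGroup E] [NormedSpace 𝕜 E]

/-- data in the case `p > 2` -/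
structure DatA (C β : ℝ) (G : ℕ → ℕ → E →L[𝕜] 𝕜) (ρ : ℕ → E) (f : ℕ → ℕ → E)
    (ρs : ℕ → E →L[𝕜] 𝕜) : Prop where
  nG : ∀ k n, ‖G k n‖ ≤ 1
  nρ : ∀ n, ‖ρ n‖ ≤ 1
  nf : ∀ k n, ‖f k n‖ ≤ 1
  nρs : ∀ n, ‖ρs n‖ ≤ 1
  upG : ∀ k, ∃ M : ℝ, 0 ≤ M ∧ ∀ (t : ℕ → 𝕜) (F : Finset ℕ),
    ‖∑ n ∈ F, t n • G k n‖ ≤ M * Real.sqrt (∑ n ∈ F, ‖t n‖ ^ 2)
  upρ : ∀ (t : ℕ → 𝕜) (F : Finset ℕ),
    ‖∑ n ∈ F, t n • ρ n‖ ≤ C * Real.sqrt (∑ n ∈ F, ‖t n‖ ^ 2)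
  upρs : ∀ (F : Finset ℕ) (θ : ℕ → ℝ), (∀ n, θ n = 1 ∨ θ n = -1) →
    ‖∑ n ∈ F, (θ n : 𝕜) • ρs n‖ ≤ C * Real.sqrt F.card
  upf : ∀ k, ∃ N₀ : ℕ, ∀ (F : Finset ℕ) (θ : ℕ → ℝ), N₀ ≤ F.card → (∀ n, θ n = 1 ∨ θ n = -1) →
    ‖∑ n ∈ F, (θ n : 𝕜) • f k n‖ ≤ C * β ^ (k + 1) * Real.sqrt F.card
  pairρ : ∀ n, ρs n (ρ n) = 1
  pair : ∀ j k n, G j n (f k n) = if j = k then 1 else 0

/-- data in the case `p < 2` -/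
structure DatB (C β : ℝ) (G : ℕ → ℕ → E) (ρ : ℕ → E) (f : ℕ → ℕ → E →L[𝕜] 𝕜)
    (ρs : ℕ → E →L[𝕜] 𝕜) : Prop where
  nG : ∀ k n, ‖G k n‖ ≤ 1
  nρ : ∀ n, ‖ρ n‖ ≤ 1
  nf : ∀ k n, ‖f k n‖ ≤ 1
  nρs : ∀ n, ‖ρs n‖ ≤ 1
  upG : ∀ k, ∃ M : ℝ, 0 ≤ M ∧ ∀ (t : ℕ → 𝕜) (F : Finset ℕ),
    ‖∑ n ∈ F, t n • G k n‖ ≤ M * Real.sqrt (∑ n ∈ F, ‖t n‖ ^ 2)
  upρs : ∀ (t : ℕ → 𝕜) (F : Finset ℕ),
    ‖∑ n ∈ F, t n • ρs n‖ ≤ C * Real.sqrt (∑ n ∈ F, ‖t n‖ ^ 2)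
  upρ : ∀ (F : Finset ℕ) (θ : ℕ → ℝ), (∀ n, θ n = 1 ∨ θ n = -1) →
    ‖∑ n ∈ F, (θ n : 𝕜) • ρ n‖ ≤ C * Real.sqrt F.card
  upf : ∀ k, ∃ N₀ : ℕ, ∀ (F : Finset ℕ) (θ : ℕ → ℝ), N₀ ≤ F.card → (∀ n, θ n = 1 ∨ θ n = -1) →
    ‖∑ n ∈ F, (θ n : 𝕜) • f k n‖ ≤ C * β ^ (k + 1) * Real.sqrt F.card
  pairρ : ∀ n, ρs n (ρ n) = 1
  pair : ∀ j k n, f k n (G j n) = if j = k then 1 else 0

variable (𝕜 E)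

/-- WITA -/
def StWitA : Prop := ∀ (C β : ℝ) (G : ℕ → ℕ → E →L[𝕜] 𝕜) (ρ : ℕ → E) (f : ℕ → ℕ → E)
  (ρs : ℕ → E →L[𝕜] 𝕜), 1 ≤ C → 0 < β → β < 1 → DatA C β G ρ f ρs →
    ∃ (a : ℕ → E →L[𝕜] 𝕜) (b : ℕ → E), Witness a b

/-- WITB -/
def StWitB : Prop := CompleteSpace E → ∀ (C β : ℝ) (G : ℕ → ℕ → E) (ρ : ℕ → E)
  (f : ℕ → ℕ → E →L[𝕜] 𝕜) (ρs : ℕ → E →L[𝕜] 𝕜), 1 ≤ C → 0 < β → β < 1 → DatB C β G ρ f ρs →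
    ∃ (a : ℕ → E →L[𝕜] 𝕜) (b : ℕ → E), Witness a b

/-- LPA -/
def StLpA : Prop := ∀ (p : ℝ≥0∞) [Fact (1 ≤ p)], 2 < p → p < ∞ →
  ∃ (C β : ℝ) (G : ℕ → ℕ → Lp 𝕜 p (volume : Measure unitInterval) →L[𝕜] 𝕜)
    (ρ : ℕ → Lp 𝕜 p (volume : Measure unitInterval))
    (f : ℕ → ℕ → Lp 𝕜 p (volume : Measure unitInterval))
    (ρs : ℕ → Lp 𝕜 p (volume : Measure unitInterval) →L[𝕜] 𝕜), 1 ≤ C ∧ 0 < β ∧ β < 1 ∧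
      DatA C β G ρ f ρs

/-- LPB -/
def StLpB : Prop := ∀ (p : ℝ≥0∞) [Fact (1 ≤ p)], 1 < p → p < 2 →
  ∃ (C β : ℝ) (G : ℕ → ℕ → Lp 𝕜 p (volume : Measure unitInterval))
    (ρ : ℕ → Lp 𝕜 p (volume : Measure unitInterval))
    (f : ℕ → ℕ → Lp 𝕜 p (volume : Measure unitInterval) →L[𝕜] 𝕜)
    (ρs : ℕ → Lp 𝕜 p (volume : Measure unitInterval) →L[𝕜] 𝕜), 1 ≤ C ∧ 0 < β ∧ β < 1 ∧
      DatB C β G ρ f ρs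

end data

end Pool.Agent.R286.UW
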