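import Mathlib
import Pool.Agent.R286.UW.Stm

set_option autoImplicit false

open Filter Topology MeasureTheory
open scoped ENNReal

namespace Pool.Agent.R286.UW

namespace LPBaux

theorem bm_sum (t : ℕ → ℝ) (h : ℕ → unitInterval → ℝ) (F : Finset ℕ) (hh : ∀ n, BM (h n)) :
    BM (fun x => ∑ n ∈ F, t n * h n x) := by
  choose hm B hB using hh
  refine ⟨Finset.measurable_fun_sum F fun n _ => (hm n).const_mul (t n),
    ∑ n ∈ F, |t n| * B n, fun x => ?_⟩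
  refine (Finset.abs_sum_le_sum_abs _ _).trans (Finset.sum_le_sum fun n _ => ?_)
  rw [abs_mul]
  exact mul_le_mul_of_nonneg_left (hB n x) (abs_nonneg _)

variable {𝕜 : Type*} [RCLike 𝕜] {V : Type*} [NormedAddCommGroup V] [NormedSpace 𝕜 V]

theorem split_sum (t : ℕ → 𝕜) (v : ℕ → V) (F : Finset ℕ) :
    ∑ n ∈ F, t n • v n = ∑ n ∈ F, ((RCLike.re (t n) : ℝ) : 𝕜) • v n +
      (RCLike.I : 𝕜) • ∑ n ∈ F, ((RCLike.im (t n) : ℝ) : 𝕜) • v n := by
  rw [Finset.smul_sum, ← Finset.sum_add_distrib]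
  refine Finset.sum_congr rfl fun n _ => ?_
  rw [smul_smul, ← add_smul]
  congr 1
  rw [mul_comm, RCLike.re_add_im]

theorem up_of_real (v : ℕ → V) (M : ℝ) (hM : 0 ≤ M)
    (h : ∀ (t : ℕ → ℝ) (F : Finset ℕ),
      ‖∑ n ∈ F, (t n : 𝕜) • v n‖ ≤ M * Real.sqrt (∑ n ∈ F, t n ^ 2))
    (t : ℕ → 𝕜) (F : Finset ℕ) :
    ‖∑ n ∈ F, t n • v n‖ ≤ 2 * M * Real.sqrt (∑ n ∈ F, ‖t n‖ ^ 2) := by
  rw [split_sum]
  have h1 := h (fun n => RCLike.re (t n)) F
  have h2 := h (fun n => RCLike.im (t n)) F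
  have h3 : Real.sqrt (∑ n ∈ F, (RCLike.re (t n)) ^ 2) ≤ Real.sqrt (∑ n ∈ F, ‖t n‖ ^ 2) := by
    apply Real.sqrt_le_sqrt
    refine Finset.sum_le_sum fun n _ => ?_
    rw [← sq_abs (RCLike.re (t n))]
    exact pow_le_pow_left₀ (abs_nonneg _) (RCLike.abs_re_le_norm _) 2
  have h4 : Real.sqrt (∑ n ∈ F, (RCLike.im (t n)) ^ 2) ≤ Real.sqrt (∑ n ∈ F, ‖t n‖ ^ 2) := by
    apply Real.sqrt_le_sqrt
    refine Finset.sum_le_sum fun n _ => ?_
    rw [← sq_abs (RCLike.im (t n))]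
    exact pow_le_pow_left₀ (abs_nonneg _) (RCLike.abs_im_le_norm _) 2
  have h5 : ‖(RCLike.I : 𝕜) • ∑ n ∈ F, ((RCLike.im (t n) : ℝ) : 𝕜) • v n‖ ≤
      ‖∑ n ∈ F, ((RCLike.im (t n) : ℝ) : 𝕜) • v n‖ := by
    rw [norm_smul]
    have h6 : ‖(RCLike.I : 𝕜)‖ ≤ 1 := by
      rcases RCLike.I_eq_zero_or_im_I_eq_one (K := 𝕜) with h0 | h0
      · rw [h0, norm_zero]; exact zero_le_one
      · exact (RCLike.norm_I_of_ne_zero (fun hc => by rw [hc] at h0; simp at h0)).le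
    calc ‖(RCLike.I : 𝕜)‖ * _ ≤ 1 * ‖∑ n ∈ F, ((RCLike.im (t n) : ℝ) : 𝕜) • v n‖ :=
          mul_le_mul_of_nonneg_right h6 (norm_nonneg _)
      _ = _ := one_mul _
  calc _ ≤ ‖∑ n ∈ F, ((RCLike.re (t n) : ℝ) : 𝕜) • v n‖ +
        ‖(RCLike.I : 𝕜) • ∑ n ∈ F, ((RCLike.im (t n) : ℝ) : 𝕜) • v n‖ := norm_add_le _ _
    _ ≤ M * Real.sqrt (∑ n ∈ F, ‖t n‖ ^ 2) + M * Real.sqrt (∑ n ∈ F, ‖t n‖ ^ 2) :=
        add_le_add (h1.trans (mul_le_mul_of_nonneg_left h3 hM))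
          (h5.trans (h2.trans (mul_le_mul_of_nonneg_left h4 hM)))
    _ = _ := by ring

theorem sum_sq_sign (F : Finset ℕ) (θ : ℕ → ℝ) (hθ : ∀ n, θ n = 1 ∨ θ n = -1) :
    ∑ n ∈ F, θ n ^ 2 = (F.card : ℝ) := by
  have : ∀ n ∈ F, θ n ^ 2 = 1 := by
    intro n _
    rcases hθ n with h | h <;> rw [h] <;> norm_num
  rw [Finset.sum_congr rfl this]
  simp

end LPBaux

open LPBaux in
theorem lpB {𝕜 : Type*} [RCLike 𝕜] (hS : StSys) (hB : StBox 𝕜) : StLpB 𝕜 := by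
  intro p hp1 h1 h2
  have htop : p < ∞ := h2.trans (by norm_num)
  set P := p.toReal with hP
  have hP1 : 1 < P := by
    have := (ENNReal.toReal_lt_toReal ENNReal.one_ne_top htop.ne).2 h1
    simpa using this
  have hP2 : P < 2 := by
    have := (ENNReal.toReal_lt_toReal htop.ne ENNReal.ofNat_ne_top).2 h2
    simpa using this
  set q := P / (P - 1) with hq
  have hPm : 0 < P - 1 := by linarith
  have hq2 : 2 < q := by
    rw [hq, lt_div_iff₀ hPm]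
    linarith
  have hqq : q / (q - 1) = P := by
    have : q - 1 = 1 / (P - 1) := by
      rw [hq]
      field_simp
      ring
    rw [this, hq]
    field_simp
  obtain ⟨C, β, ρ, f, g, hC, hβ, hβ1, hs⟩ := hS q hq2
  obtain ⟨el, fn, hb⟩ := hB p h1 htop
  have hC0 : 0 ≤ C := by linarith
  have elb : ∀ (t : ℕ → ℝ) (h : ℕ → unitInterval → ℝ) (F : Finset ℕ), (∀ n, BM (h n)) →
      ‖∑ n ∈ F, (t n : 𝕜) • el (h n)‖ ≤ nrm (q / (q - 1)) (fun x => ∑ n ∈ F, t n * h n x) := by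
    intro t h F hh
    rw [← hb.sel t h F hh, hqq]
    exact hb.nel _ (bm_sum t h F hh)
  have fnb : ∀ (t : ℕ → ℝ) (h : ℕ → unitInterval → ℝ) (F : Finset ℕ), (∀ n, BM (h n)) →
      ‖∑ n ∈ F, (t n : 𝕜) • fn (h n)‖ ≤ nrm q (fun x => ∑ n ∈ F, t n * h n x) := by
    intro t h F hh
    rw [← hb.sfn t h F hh]
    exact hb.nfn _ (bm_sum t h F hh)
  refine ⟨2 * C, β, fun k n => el (g k n), fun n => el (ρ n), fun k n => fn (f k n),
    fun n => fn (ρ n), by linarith, hβ, hβ1, ?_⟩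
  constructor
  · intro k n
    refine (hb.nel _ (hs.bmg k n)).trans ?_
    have := hs.ng k n
    rwa [hqq] at this
  · intro n
    refine (hb.nel _ (hs.bmρ n)).trans ?_
    have := hs.nρ' n
    rwa [hqq] at this
  · intro k n
    exact (hb.nfn _ (hs.bmf k n)).trans (hs.nf k n)
  · intro n
    exact (hb.nfn _ (hs.bmρ n)).trans (hs.nρ n)
  · intro k
    obtain ⟨M, hM, hMb⟩ := hs.upg k
    refine ⟨2 * M, by linarith, ?_⟩
    exact up_of_real _ M hM fun t F => (elb t _ F (fun n => hs.bmg k n)).trans (hMb t F)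
  · exact up_of_real _ C hC0 fun t F => (fnb t _ F (fun n => hs.bmρ n)).trans (hs.upρ t F)
  · intro F θ hθ
    refine (elb θ _ F (fun n => hs.bmρ n)).trans ((hs.upρ' θ F).trans ?_)
    rw [sum_sq_sign F θ hθ]
    have := Real.sqrt_nonneg (F.card : ℝ)
    nlinarith
  · intro k
    obtain ⟨N₀, hN⟩ := hs.upf k
    refine ⟨N₀, fun F θ hF hθ => ?_⟩
    refine (fnb θ _ F (fun n => hs.bmf k n)).trans ((hN F θ hF hθ).trans ?_)
    have h3 : 0 ≤ β ^ (k + 1) * Real.sqrt (F.card : ℝ) := by positivity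
    nlinarith
  · intro n
    show fn (ρ n) (el (ρ n)) = 1
    rw [hb.pair _ _ (hs.bmρ n) (hs.bmρ n), hs.pairρ n]
    simp
  · intro j k n
    show fn (f k n) (el (g j n)) = _
    rw [hb.pair _ _ (hs.bmf k n) (hs.bmg j n), hs.pair k j n]
    by_cases hjk : j = k
    · subst hjk; simp
    · rw [if_neg hjk, if_neg (fun h => hjk h.symm)]; simp

end Pool.Agent.R286.UW
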