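import Pool.Agent.R286.UW.Stm

set_option autoImplicit false

open MeasureTheory

namespace Pool.Agent.R286.UW

namespace Mom

theorem abs_rpow_le (q : ℝ) (hq : 1 ≤ q) (x : ℝ) :
    |x| ^ q ≤ (1 + (⌈q⌉₊.factorial : ℝ)) * (Real.exp x + Real.exp (-x)) := by
  set m := ⌈q⌉₊ with hm
  have h1 : Real.exp |x| ≤ Real.exp x + Real.exp (-x) := by
    rcases abs_cases x with ⟨h, _⟩ | ⟨h, _⟩ <;> rw [h]
    · have := Real.exp_pos (-x); linarith
    · have := Real.exp_pos x; linarith
  have h2 : |x| ^ m ≤ m.factorial * Real.exp |x| := by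
    have := Real.pow_div_factorial_le_exp |x| (abs_nonneg x) m
    rw [div_le_iff₀ (by positivity)] at this
    linarith
  have h3 : |x| ^ q ≤ 1 + |x| ^ m := by
    rcases le_or_gt |x| 1 with h | h
    · have : |x| ^ q ≤ 1 := Real.rpow_le_one (abs_nonneg x) h (by linarith)
      have h4 : 0 ≤ |x| ^ m := by positivity
      linarith
    · have : |x| ^ q ≤ |x| ^ (m : ℝ) :=
        Real.rpow_le_rpow_of_exponent_le h.le (Nat.le_ceil q)
      rw [Real.rpow_natCast] at this
      linarith
  have h4 : 1 ≤ Real.exp |x| := Real.one_le_exp (abs_nonneg x)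
  have h5 : (0 : ℝ) ≤ m.factorial := by positivity
  nlinarith

theorem bm_sum (X : ℕ → unitInterval → ℝ) (F : Finset ℕ) (h : ∀ n, BM (X n)) :
    BM (fun t => ∑ n ∈ F, X n t) := by
  choose hm B hB using h
  refine ⟨Finset.measurable_fun_sum F fun n _ => hm n, ∑ n ∈ F, B n, fun t => ?_⟩
  exact (Finset.abs_sum_le_sum_abs _ _).trans (Finset.sum_le_sum fun n _ => hB n t)

theorem int_exp (h : unitInterval → ℝ) (c : ℝ) (hh : BM h) :
    Integrable (fun t => Real.exp (c * h t)) (volume : Measure unitInterval) := by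
  obtain ⟨hm, B, hB⟩ := hh
  refine Integrable.of_bound ((hm.const_mul c).exp.aestronglyMeasurable) (Real.exp (|c| * B)) ?_
  refine Filter.Eventually.of_forall fun t => ?_
  rw [Real.norm_of_nonneg (Real.exp_pos _).le]
  apply Real.exp_le_exp.2
  calc c * h t ≤ |c * h t| := le_abs_self _
    _ = |c| * |h t| := abs_mul _ _
    _ ≤ |c| * B := by gcongr; exact hB t

end Mom

theorem mom : StMom := by
  intro q hq
  set K : ℝ := 1 + (⌈q⌉₊.factorial : ℝ) with hK
  have hK0 : 0 ≤ K := by positivity
  refine ⟨max 1 ((2 * Real.exp 1 * K) ^ (1 / q)), le_max_left _ _, ?_⟩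
  intro X v F hX hind h1 h2 hv
  refine le_trans ?_ (le_max_right _ _)
  have hS := Mom.bm_sum X F hX
  set S : unitInterval → ℝ := fun t => ∑ n ∈ F, X n t with hSd
  have hSF : S = ∑ n ∈ F, X n := by
    funext t; simp [S]
  have hprod : ∀ c : ℝ, ∫ t, Real.exp (c * S t) = ∏ n ∈ F, ∫ t, Real.exp (c * X n t) := by
    intro c
    have := hind.mgf_sum (fun n => (hX n).1) F (t := c)
    rw [← hSF] at this
    exact this
  have hle : ∀ c : ℝ, (∀ n ∈ F, ∫ t, Real.exp (c * X n t) ≤ Real.exp (v n)) →
      ∫ t, Real.exp (c * S t) ≤ Real.exp 1 := by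
    intro c hc
    rw [hprod]
    calc ∏ n ∈ F, ∫ t, Real.exp (c * X n t) ≤ ∏ n ∈ F, Real.exp (v n) :=
          Finset.prod_le_prod (fun n _ => integral_nonneg fun t => (Real.exp_pos _).le) hc
      _ = Real.exp (∑ n ∈ F, v n) := (Real.exp_sum F v).symm
      _ ≤ Real.exp 1 := Real.exp_le_exp.2 hv
  have e1 : ∫ t, Real.exp (S t) ≤ Real.exp 1 := by
    have := hle 1 (by simpa using h1)
    simpa using this
  have e2 : ∫ t, Real.exp (-S t) ≤ Real.exp 1 := by
    have := hle (-1) (by simpa using h2)
    simpa using this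
  have i1 : Integrable (fun t => Real.exp (S t)) (volume : Measure unitInterval) := by
    have := Mom.int_exp S 1 hS
    simpa using this
  have i2 : Integrable (fun t => Real.exp (-S t)) (volume : Measure unitInterval) := by
    have := Mom.int_exp S (-1) hS
    simpa using this
  have key : ∫ t, |S t| ^ q ≤ 2 * Real.exp 1 * K := by
    calc ∫ t, |S t| ^ q ≤ ∫ t, K * (Real.exp (S t) + Real.exp (-S t)) := by
          refine integral_mono_of_nonneg (Filter.Eventually.of_forall fun t => by positivity)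
            ((i1.add i2).const_mul K) (Filter.Eventually.of_forall fun t => ?_)
          exact Mom.abs_rpow_le q hq (S t)
      _ = K * ((∫ t, Real.exp (S t)) + ∫ t, Real.exp (-S t)) := by
          rw [integral_const_mul, integral_add i1 i2]
      _ ≤ K * (Real.exp 1 + Real.exp 1) := by gcongr
      _ = 2 * Real.exp 1 * K := by ring
  unfold nrm
  exact Real.rpow_le_rpow (integral_nonneg fun t => by positivity) key (by positivity)

end Pool.Agent.R286.UW
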