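import Mathlib
import Pool.Agent.R286.UW.Stm

/-! UW-NOTIN (MP_7518b9_an): sign argument. helper634. -/

set_option autoImplicit false

open Filter Topology
open scoped ENNReal

namespace Pool.Agent.R286.UW

namespace NotinAux

/-- greedy choice of signs -/
lemma signs (K : ℕ → ℕ → ℝ) (F : Finset ℕ) : ∃ θ : ℕ → ℝ, (∀ n, θ n = 1 ∨ θ n = -1) ∧
    ∑ n ∈ F, K n n ≤ ∑ n ∈ F, ∑ m ∈ F, θ n * θ m * K n m := by
  classical
  induction F using Finset.induction_on with
  | empty => exact ⟨fun _ => 1, fun _ => Or.inl rfl, by simp⟩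
  | @insert a s ha ih =>
    obtain ⟨θ, hθ, hle⟩ := ih
    set X : ℝ := ∑ m ∈ s, θ m * K a m + ∑ n ∈ s, θ n * K n a with hX
    obtain ⟨σ, hσ, hσX⟩ : ∃ σ : ℝ, (σ = 1 ∨ σ = -1) ∧ 0 ≤ σ * X := by
      rcases le_total 0 X with h | h
      · exact ⟨1, Or.inl rfl, by linarith⟩
      · exact ⟨-1, Or.inr rfl, by linarith⟩
    have hσ2 : σ * σ = 1 := by rcases hσ with h | h <;> rw [h] <;> norm_num
    refine ⟨Function.update θ a σ, ?_, ?_⟩
    · intro n
      by_cases h : n = a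
      · subst h; simpa using hσ
      · rw [Function.update_of_ne h]; exact hθ n
    · have hu : ∀ n ∈ s, Function.update θ a σ n = θ n := by
        intro n hn
        rw [Function.update_of_ne]
        rintro rfl
        exact ha hn
      have hua : Function.update θ a σ a = σ := by simp
      rw [Finset.sum_insert ha, Finset.sum_insert ha, Finset.sum_insert ha, hua]
      have h1 : ∑ m ∈ s, σ * Function.update θ a σ m * K a m = σ * ∑ m ∈ s, θ m * K a m := by
        rw [Finset.mul_sum]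
        apply Finset.sum_congr rfl
        intro m hm
        rw [hu m hm]; ring
      have h2 : ∑ n ∈ s, ∑ m ∈ insert a s, Function.update θ a σ n * Function.update θ a σ m * K n m =
          σ * ∑ n ∈ s, θ n * K n a + ∑ n ∈ s, ∑ m ∈ s, θ n * θ m * K n m := by
        rw [Finset.mul_sum, ← Finset.sum_add_distrib]
        apply Finset.sum_congr rfl
        intro n hn
        rw [Finset.sum_insert ha, hua, hu n hn]
        congr 1
        · ring
        · apply Finset.sum_congr rfl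
          intro m hm
          rw [hu m hm]
      rw [h1, h2, hσ2]
      have h3 : σ * X = σ * ∑ m ∈ s, θ m * K a m + σ * ∑ n ∈ s, θ n * K n a := by
        rw [hX]; ring
      linarith

end NotinAux

open NotinAux in
theorem notin {𝕜 : Type*} [RCLike 𝕜] {E : Type*} [NormedAddCommGroup E] [NormedSpace 𝕜 E]
    {Y : Type*} [NormedAddCommGroup Y] [NormedSpace 𝕜 Y] (hf : StFunc 𝕜 E Y) : StNotin 𝕜 E Y := by
  classical
  intro 𝒰 ι hI hnp a b hW Φ hΦ r hA
  have hr : 0 ≤ r := by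
    obtain ⟨T, -, hT, -⟩ := hA ∅ 1 one_pos
    exact (norm_nonneg T).trans hT
  obtain ⟨c, N₀, y, φ, hc, hb, hp, htest⟩ := hW.test (2 * r + 1) (by linarith)
  have hymem : Memℓp (E := fun _ : ℕ => E) y ∞ := memℓp_infty ⟨1, by
    rintro _ ⟨n, rfl⟩
    exact (hb n).1⟩
  set yb : BS E := ⟨y, hymem⟩ with hyb
  have hybn : ∀ n, yb n = y n := fun _ => rfl
  obtain ⟨Ψ, hΨ⟩ := hf 𝒰 ι hI φ 1 (fun n => (hb n).2)
  have hprod : Φ (ι yb) * Ψ (ι b) = (c : 𝕜) := by
    have h1 := (hΦ yb).mul (hΨ b)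
    have h2 : (fun n => a n (yb n) * φ n (b n)) = fun _ => (c : 𝕜) := by
      ext n
      rw [hybn]
      exact hp n
    rw [h2] at h1
    exact tendsto_nhds_unique h1 tendsto_const_nhds
  obtain ⟨T, T', hT, hUp, hclose⟩ := hA {(ι yb, Ψ)} (c / 4) (by linarith)
  have hclose := hclose (ι yb, Ψ) (Finset.mem_singleton_self _)
  simp only [ContinuousLinearMap.smulRight_apply] at hclose
  rw [map_sub, map_smul, smul_eq_mul, hprod] at hclose
  have hx'mem : Memℓp (E := fun _ : ℕ => E) (fun n => T (y n)) ∞ := memℓp_infty ⟨‖T‖ * 1, by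
    rintro _ ⟨n, rfl⟩
    exact (T.le_opNorm _).trans (mul_le_mul_of_nonneg_left (hb n).1 (norm_nonneg _))⟩
  set x' : BS E := ⟨fun n => T (y n), hx'mem⟩ with hx'
  have hT'y : T' (ι yb) = ι x' := hUp yb x' (fun n => rfl)
  rw [hT'y] at hclose
  have hlim : Tendsto (fun n => φ n (T (y n))) (𝒰 : Filter ℕ) (𝓝 (Ψ (ι x'))) := hΨ x'
  have hre : Tendsto (fun n => RCLike.re (φ n (T (y n)))) (𝒰 : Filter ℕ)
      (𝓝 (RCLike.re (Ψ (ι x')))) := (RCLike.continuous_re.tendsto _).comp hlim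
  have hgt : c / 2 < RCLike.re (Ψ (ι x')) := by
    have h1 := (RCLike.abs_re_le_norm ((c : 𝕜) - Ψ (ι x'))).trans hclose.le
    rw [map_sub, RCLike.ofReal_re] at h1
    have h2 := (abs_le.1 h1).2
    linarith
  have hev : ∀ᶠ n in (𝒰 : Filter ℕ), c / 2 < RCLike.re (φ n (T (y n))) := hre.eventually_const_lt hgt
  set A : Set ℕ := {n | c / 2 < RCLike.re (φ n (T (y n)))} with hAdef
  have hAmem : A ∈ 𝒰 := hev
  have hAinf : A.Infinite := by
    intro hfin
    obtain ⟨x, -, hx⟩ := Ultrafilter.eq_pure_of_finite_mem hfin hAmem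
    apply hnp x
    rw [hx]
    exact Ultrafilter.mem_pure.2 rfl
  obtain ⟨F, hFA, hFc⟩ := hAinf.exists_subset_card_eq (max N₀ 1)
  obtain ⟨θ, hθ, hle⟩ := signs (fun n m => RCLike.re (φ m (T (y n)))) F
  have htest := htest F θ (by rw [hFc]; exact le_max_left _ _) hθ
  set yS : E := ∑ n ∈ F, (θ n : 𝕜) • y n with hyS
  set φS : E →L[𝕜] 𝕜 := ∑ n ∈ F, (θ n : 𝕜) • φ n with hφS
  have hval : RCLike.re (φS (T yS)) =
      ∑ n ∈ F, ∑ m ∈ F, θ n * θ m * RCLike.re (φ m (T (y n))) := by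
    have h1 : φS (T yS) = ∑ n ∈ F, ∑ m ∈ F, ((θ n * θ m : ℝ) : 𝕜) * φ m (T (y n)) := by
      rw [hφS, hyS, map_sum, map_sum]
      apply Finset.sum_congr rfl
      intro n _
      rw [map_smul, map_smul, ContinuousLinearMap.sum_apply, Finset.smul_sum]
      apply Finset.sum_congr rfl
      intro m _
      rw [ContinuousLinearMap.smul_apply, smul_eq_mul, smul_eq_mul]
      push_cast
      ring
    rw [h1, map_sum]
    apply Finset.sum_congr rfl
    intro n _
    rw [map_sum]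
    apply Finset.sum_congr rfl
    intro m _
    rw [RCLike.re_ofReal_mul]
  have hcard : 1 ≤ F.card := by rw [hFc]; exact le_max_right _ _
  have hlow : (F.card : ℝ) * (c / 2) ≤ ∑ n ∈ F, RCLike.re (φ n (T (y n))) := by
    rw [← nsmul_eq_mul]
    apply Finset.card_nsmul_le_sum
    intro n hn
    exact (show c / 2 < RCLike.re (φ n (T (y n))) from hFA hn).le
  have hlow' : (F.card : ℝ) * (c / 2) < ∑ n ∈ F, RCLike.re (φ n (T (y n))) := by
    have h1 : ∑ _n ∈ F, (c / 2) < ∑ n ∈ F, RCLike.re (φ n (T (y n))) := by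
      apply Finset.sum_lt_sum_of_nonempty (Finset.card_pos.1 hcard)
      intro n hn
      exact hFA hn
    rwa [Finset.sum_const, nsmul_eq_mul] at h1
  have hup : RCLike.re (φS (T yS)) ≤ r * (‖yS‖ * ‖φS‖) := by
    calc RCLike.re (φS (T yS)) ≤ ‖φS (T yS)‖ := RCLike.re_le_norm _
      _ ≤ ‖φS‖ * ‖T yS‖ := φS.le_opNorm _
      _ ≤ ‖φS‖ * (‖T‖ * ‖yS‖) := mul_le_mul_of_nonneg_left (T.le_opNorm _) (norm_nonneg _)
      _ ≤ ‖φS‖ * (r * ‖yS‖) := mul_le_mul_of_nonneg_left
          (mul_le_mul_of_nonneg_right hT (norm_nonneg _)) (norm_nonneg _)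
      _ = r * (‖yS‖ * ‖φS‖) := by ring
  have hP : 0 ≤ ‖yS‖ * ‖φS‖ := mul_nonneg (norm_nonneg _) (norm_nonneg _)
  rw [hval] at hup
  have h9 : (2 * r + 1) * (‖yS‖ * ‖φS‖) = 2 * (r * (‖yS‖ * ‖φS‖)) + ‖yS‖ * ‖φS‖ := by ring
  rw [h9] at htest
  linarith

end Pool.Agent.R286.UW
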