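import Mathlib
import Pool.Agent.R286.UW.Stm

/-!
# Piece ONE (MP_7518b9_an): explicit one-variable step functions
-/

set_option autoImplicit false

open Filter Topology MeasureTheory Set
open scoped ENNReal

namespace Pool.Agent.R286.UW

namespace OneAux

/-- the difference of two indicator functions -/
noncomputable def sg (A B : Set unitInterval) (t : unitInterval) : ℝ :=
  A.indicator (fun _ => (1 : ℝ)) t - B.indicator (fun _ => (1 : ℝ)) t

theorem sg_meas {A B : Set unitInterval} (hA : MeasurableSet A) (hB : MeasurableSet B) :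
    Measurable (sg A B) :=
  (measurable_const.indicator hA).sub (measurable_const.indicator hB)

theorem sg_cases (A B : Set unitInterval) (hd : Disjoint A B) (t : unitInterval) :
    (t ∈ A ∧ t ∉ B ∧ sg A B t = 1) ∨ (t ∈ B ∧ t ∉ A ∧ sg A B t = -1) ∨
      (t ∉ A ∧ t ∉ B ∧ sg A B t = 0) := by
  unfold sg
  by_cases hA : t ∈ A
  · have hB : t ∉ B := fun h => (Set.disjoint_left.1 hd) hA h
    left
    refine ⟨hA, hB, ?_⟩
    rw [indicator_of_mem hA, indicator_of_notMem hB]
    norm_num
  · by_cases hB : t ∈ B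
    · right
      left
      refine ⟨hB, hA, ?_⟩
      rw [indicator_of_notMem hA, indicator_of_mem hB]
      norm_num
    · right
      right
      refine ⟨hA, hB, ?_⟩
      rw [indicator_of_notMem hA, indicator_of_notMem hB]
      norm_num

theorem sg_bd (A B : Set unitInterval) (hd : Disjoint A B) (t : unitInterval) :
    |sg A B t| ≤ 1 := by
  rcases sg_cases A B hd t with h | h | h <;> rw [h.2.2] <;> norm_num

theorem int_gen {A B : Set unitInterval} (hA : MeasurableSet A) (hB : MeasurableSet B)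
    (hd : Disjoint A B) (v : ℝ) (vA : (volume : Measure unitInterval).real A = v)
    (vB : (volume : Measure unitInterval).real B = v) (φ : ℝ → ℝ) :
    ∫ t, φ (sg A B t) = φ 0 * (1 - 2 * v) + v * φ 1 + v * φ (-1) := by
  have e : ∀ t, φ (sg A B t) = φ 0 + (A.indicator (fun _ => φ 1 - φ 0) t +
      B.indicator (fun _ => φ (-1) - φ 0) t) := by
    intro t
    rcases sg_cases A B hd t with h | h | h
    · rw [h.2.2, indicator_of_mem h.1, indicator_of_notMem h.2.1]
      ring
    · rw [h.2.2, indicator_of_mem h.1, indicator_of_notMem h.2.1]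
      ring
    · rw [h.2.2, indicator_of_notMem h.1, indicator_of_notMem h.2.1]
      ring
  have iA : Integrable (A.indicator fun _ => φ 1 - φ 0) (volume : Measure unitInterval) :=
    (integrable_const _).indicator hA
  have iB : Integrable (B.indicator fun _ => φ (-1) - φ 0) (volume : Measure unitInterval) :=
    (integrable_const _).indicator hB
  have iAB : Integrable (fun t => A.indicator (fun _ => φ 1 - φ 0) t +
      B.indicator (fun _ => φ (-1) - φ 0) t) (volume : Measure unitInterval) := iA.add iB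
  rw [integral_congr_ae (Eventually.of_forall e), integral_add (integrable_const _) iAB,
    integral_add iA iB, integral_indicator_const _ hA, integral_indicator_const _ hB,
    integral_const, vA, vB]
  simp
  ring

theorem pw0 (k : ℕ) : (0 : ℝ) < (1 / 2) ^ k := by positivity

theorem pw1 (k : ℕ) : (1 / 2 : ℝ) ^ k ≤ 1 := pow_le_one₀ (by norm_num) (by norm_num)

/-- the points `2⁻ᵏ` -/
noncomputable def pt (k : ℕ) : unitInterval := ⟨(1 / 2 : ℝ) ^ k, (pw0 k).le, pw1 k⟩

/-- the midpoints -/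
noncomputable def md (k : ℕ) : unitInterval := ⟨3 * (1 / 2 : ℝ) ^ (k + 2), by positivity, by
  have := pw1 k
  rw [pow_add]
  linarith⟩

/-- left halves -/
noncomputable def P (k : ℕ) : Set unitInterval := Ico (pt (k + 1)) (md k)

/-- right halves -/
noncomputable def M (k : ℕ) : Set unitInterval := Ico (md k) (pt k)

theorem P_vol (k : ℕ) : (volume : Measure unitInterval).real (P k) = (1 / 2) ^ (k + 2) := by
  unfold P Measure.real
  rw [unitInterval.volume_Ico]
  have : (md k : ℝ) - (pt (k + 1) : ℝ) = (1 / 2) ^ (k + 2) := by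
    unfold md pt
    simp only [pow_succ]
    ring
  rw [this, ENNReal.toReal_ofReal (by positivity)]

theorem M_vol (k : ℕ) : (volume : Measure unitInterval).real (M k) = (1 / 2) ^ (k + 2) := by
  unfold M Measure.real
  rw [unitInterval.volume_Ico]
  have : (pt k : ℝ) - (md k : ℝ) = (1 / 2) ^ (k + 2) := by
    unfold md pt
    simp only [pow_succ]
    ring
  rw [this, ENNReal.toReal_ofReal (by positivity)]

theorem PM (k : ℕ) : Disjoint (P k) (M k) := by
  rw [Set.disjoint_left]
  intro t h h'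
  exact absurd h.2 (not_lt.2 h'.1)

/-- the sign functions -/
noncomputable def S (k : ℕ) : unitInterval → ℝ := sg (P k) (M k)

theorem md_le (k : ℕ) : (md k : ℝ) ≤ (1 / 2) ^ k := by
  unfold md
  simp only [pow_succ]
  have := pw0 k
  linarith

theorem le_md (k : ℕ) : (1 / 2 : ℝ) ^ (k + 1) ≤ md k := by
  unfold md
  simp only [pow_succ]
  have := pw0 k
  linarith

theorem S_supp (k : ℕ) (t : unitInterval) (h : S k t ≠ 0) :
    (1 / 2 : ℝ) ^ (k + 1) ≤ t ∧ (t : ℝ) < (1 / 2) ^ k := by
  rcases sg_cases (P k) (M k) (PM k) t with h1 | h1 | h1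
  · have h2 : (pt (k + 1) : ℝ) ≤ t := h1.1.1
    have h3 : (t : ℝ) < md k := h1.1.2
    exact ⟨h2, h3.trans_le (md_le k)⟩
  · have h2 : (md k : ℝ) ≤ t := h1.1.1
    have h3 : (t : ℝ) < pt k := h1.1.2
    exact ⟨(le_md k).trans h2, h3⟩
  · exact absurd h1.2.2 h

theorem S_ort (j k : ℕ) (hjk : j ≠ k) (t : unitInterval) : S j t * S k t = 0 := by
  by_contra h
  have hj := S_supp j t (left_ne_zero_of_mul h)
  have hk := S_supp k t (right_ne_zero_of_mul h)
  rcases lt_or_gt_of_ne hjk with h1 | h1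
  · have : (1 / 2 : ℝ) ^ k ≤ (1 / 2) ^ (j + 1) :=
      pow_le_pow_of_le_one (by norm_num) (by norm_num) h1
    linarith [hj.1, hk.2]
  · have : (1 / 2 : ℝ) ^ j ≤ (1 / 2) ^ (k + 1) :=
      pow_le_pow_of_le_one (by norm_num) (by norm_num) h1
    linarith [hk.1, hj.2]

theorem S_int (k : ℕ) (φ : ℝ → ℝ) :
    ∫ t, φ (S k t) = φ 0 * (1 - 2 * (1 / 2) ^ (k + 2)) + (1 / 2) ^ (k + 2) * φ 1 +
      (1 / 2) ^ (k + 2) * φ (-1) :=
  int_gen measurableSet_Ico measurableSet_Ico (PM k) _ (P_vol k) (M_vol k) φ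

theorem S_meas (k : ℕ) : Measurable (S k) := sg_meas measurableSet_Ico measurableSet_Ico

theorem S_bd (k : ℕ) (t : unitInterval) : |S k t| ≤ 1 := sg_bd _ _ (PM k) t

theorem bm_mul (c : ℝ) (k : ℕ) : BM fun t => c * S k t := by
  refine ⟨(S_meas k).const_mul c, |c|, fun t => ?_⟩
  rw [abs_mul]
  exact mul_le_of_le_one_right (abs_nonneg _) (S_bd k t)

/-- the point `1/2` -/
noncomputable def hf : unitInterval := ⟨1 / 2, by norm_num, by norm_num⟩

/-- the function `r` -/
noncomputable def rr : unitInterval → ℝ := sg (Iio hf) (Ici hf)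

theorem rr_dis : Disjoint (Iio hf) (Ici hf) := by
  rw [Set.disjoint_left]
  intro t h h'
  exact (not_lt.2 (mem_Ici.1 h')) (mem_Iio.1 h)

theorem rr_int (φ : ℝ → ℝ) : ∫ t, φ (rr t) = (φ 1 + φ (-1)) / 2 := by
  have h1 : (volume : Measure unitInterval).real (Iio hf) = 1 / 2 := by
    unfold Measure.real
    rw [unitInterval.volume_Iio]
    unfold hf
    rw [ENNReal.toReal_ofReal (by norm_num)]
  have h2 : (volume : Measure unitInterval).real (Ici hf) = 1 / 2 := by
    unfold Measure.real
    rw [unitInterval.volume_Ici]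
    unfold hf
    rw [ENNReal.toReal_ofReal (by norm_num)]
    norm_num
  unfold rr
  rw [int_gen measurableSet_Iio measurableSet_Ici rr_dis (1 / 2) h1 h2 φ]
  ring

theorem rr_pm (t : unitInterval) : rr t = 1 ∨ rr t = -1 := by
  rcases sg_cases (Iio hf) (Ici hf) rr_dis t with h | h | h
  · exact Or.inl h.2.2
  · exact Or.inr h.2.2
  · exfalso
    rcases lt_or_ge t hf with h1 | h1
    · exact h.1 h1
    · exact h.2.1 h1

theorem cosh_bd (u : ℝ) (hu : |u| ≤ 1) : Real.cosh u - 1 ≤ u ^ 2 := by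
  have h1 := Real.cosh_le_exp_half_sq u
  have h0 : u ^ 2 ≤ 1 := by
    rw [← sq_abs]
    exact pow_le_one₀ (abs_nonneg _) hu
  have h2 := Real.abs_exp_sub_one_sub_id_le (x := u ^ 2 / 2) (by
    rw [abs_of_nonneg (by positivity)]
    linarith)
  have h3 := (abs_le.1 h2).2
  nlinarith [sq_nonneg u]

end OneAux

open OneAux in
theorem one : StOne := by
  intro q hq
  have q0 : 0 < q := by linarith
  have q1 : 0 < q - 1 := by linarith
  have h2 : (0 : ℝ) < 2 := two_pos
  have hpow : ∀ k : ℕ, (1 / 2 : ℝ) ^ (k + 2) * (2 : ℝ) ^ ((k : ℝ) + 1) = 1 / 2 := by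
    intro k
    have : (2 : ℝ) ^ ((k : ℝ) + 1) = 2 ^ (k + 1) := by
      rw [← Real.rpow_natCast]
      push_cast
      rfl
    rw [this, one_div, inv_pow, pow_succ (2 : ℝ) (k + 1), mul_inv]
    field_simp
  refine ⟨2 ^ (1 / q - 1 / 2), rr, fun k t => (2 : ℝ) ^ (((k : ℝ) + 1) / q) * S k t,
    fun k t => (2 : ℝ) ^ (((k : ℝ) + 1) * (1 - 1 / q)) * S k t,
    fun k => (2 : ℝ) ^ (((k : ℝ) + 1) / q), by positivity, ?_, ?_⟩
  · refine Real.rpow_lt_one_of_one_lt_of_neg one_lt_two ?_
    have : 1 / q < 1 / 2 := one_div_lt_one_div_of_lt two_pos hq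
    linarith
  · refine ⟨⟨sg_meas measurableSet_Iio measurableSet_Ici, 1, fun t => sg_bd _ _ rr_dis t⟩,
      fun k => bm_mul _ k, fun k => bm_mul _ k, rr_pm, fun τ => ?_, ?_, fun k => ?_, fun k => ?_,
      fun k => ?_, fun j k => ?_, fun k => by positivity, fun k τ hτ => ?_⟩
    · rw [rr_int (fun x => Real.exp (τ * x)), Real.cosh_eq]
      simp
    · have := rr_int (fun x => x)
      simpa using this
    · have := S_int k (fun x => (2 : ℝ) ^ (((k : ℝ) + 1) * (1 - 1 / q)) * x)
      rw [this]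
      ring
    · have h := S_int k (fun x => |(2 : ℝ) ^ (((k : ℝ) + 1) / q) * x| ^ q)
      have hH : (0 : ℝ) ≤ (2 : ℝ) ^ (((k : ℝ) + 1) / q) := by positivity
      rw [h]
      simp only [mul_zero, abs_zero, mul_one, mul_neg, abs_neg]
      rw [Real.zero_rpow q0.ne', abs_of_nonneg hH, ← Real.rpow_mul h2.le,
        div_mul_cancel₀ _ q0.ne']
      have := hpow k
      linarith
    · have h := S_int k (fun x => |(2 : ℝ) ^ (((k : ℝ) + 1) * (1 - 1 / q)) * x| ^ (q / (q - 1)))
      have hH : (0 : ℝ) ≤ (2 : ℝ) ^ (((k : ℝ) + 1) * (1 - 1 / q)) := by positivity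
      rw [h]
      simp only [mul_zero, abs_zero, mul_one, mul_neg, abs_neg]
      have e : ((k : ℝ) + 1) * (1 - 1 / q) * (q / (q - 1)) = (k : ℝ) + 1 := by
        field_simp
      rw [Real.zero_rpow (div_pos q0 q1).ne', abs_of_nonneg hH, ← Real.rpow_mul h2.le, e]
      have := hpow k
      linarith
    · by_cases hjk : j = k
      · subst hjk
        rw [if_pos rfl]
        have h := S_int j (fun x => (2 : ℝ) ^ (((j : ℝ) + 1) / q) * x *
          ((2 : ℝ) ^ (((j : ℝ) + 1) * (1 - 1 / q)) * x))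
        rw [h]
        have e : (2 : ℝ) ^ (((j : ℝ) + 1) / q) * (2 : ℝ) ^ (((j : ℝ) + 1) * (1 - 1 / q)) =
            (2 : ℝ) ^ ((j : ℝ) + 1) := by
          rw [← Real.rpow_add h2]
          congr 1
          ring
        have := hpow j
        rw [← e] at this
        linarith
      · rw [if_neg hjk]
        have : ∀ t, (2 : ℝ) ^ (((j : ℝ) + 1) / q) * S j t *
            ((2 : ℝ) ^ (((k : ℝ) + 1) * (1 - 1 / q)) * S k t) = 0 := by
          intro t
          have := S_ort j k hjk t
          calc _ = (2 : ℝ) ^ (((j : ℝ) + 1) / q) * (2 : ℝ) ^ (((k : ℝ) + 1) * (1 - 1 / q)) *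
                (S j t * S k t) := by ring
            _ = 0 := by rw [this, mul_zero]
        rw [integral_congr_ae (Eventually.of_forall this)]
        simp
    · have h := S_int k (fun x => Real.exp (τ * ((2 : ℝ) ^ (((k : ℝ) + 1) / q) * x)))
      have hH : (0 : ℝ) ≤ (2 : ℝ) ^ (((k : ℝ) + 1) / q) := by positivity
      rw [h]
      have hc := cosh_bd (τ * (2 : ℝ) ^ (((k : ℝ) + 1) / q)) (by
        rw [abs_mul, abs_of_nonneg hH]
        exact hτ)
      rw [Real.cosh_eq] at hc
      simp only [mul_zero, mul_one, mul_neg, Real.exp_zero]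
      have e : (((2 : ℝ) ^ (1 / q - 1 / 2)) ^ (k + 1)) ^ 2 =
          2 * (1 / 2) ^ (k + 2) * ((2 : ℝ) ^ (((k : ℝ) + 1) / q)) ^ 2 := by
        have e1 : (2 * (1 / 2) ^ (k + 2) : ℝ) = (2 : ℝ) ^ (-((k : ℝ) + 1)) := by
          rw [Real.rpow_neg h2.le]
          have : (2 : ℝ) ^ ((k : ℝ) + 1) = 2 ^ (k + 1) := by
            rw [← Real.rpow_natCast]
            push_cast
            rfl
          rw [this, one_div, inv_pow, pow_succ (2 : ℝ) (k + 1)]
          field_simp
        rw [e1, ← Real.rpow_natCast, ← Real.rpow_natCast, ← Real.rpow_natCast,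
          ← Real.rpow_mul h2.le, ← Real.rpow_mul h2.le, ← Real.rpow_mul h2.le,
          ← Real.rpow_add h2]
        congr 1
        push_cast
        field_simp
        ring
      rw [e]
      have hp := pw0 (k + 2)
      nlinarith

end Pool.Agent.R286.UW
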