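import Pool.Agent.R286.UW.Stm

/-!
# Piece OP: the operators `x ↦ ∑_{m ∈ A} a_m(x) b_m`
-/

set_option autoImplicit false

open Filter Topology

namespace Pool.Agent.R286.UW

namespace OpX

variable {𝕜 : Type*} [RCLike 𝕜] {E : Type*} [NormedAddCommGroup E] [NormedSpace 𝕜 E]

lemma bessel {a : ℕ → E →L[𝕜] 𝕜} {b : ℕ → E} {C : ℝ} (h : TwoEst C a b) (x : E) (F : Finset ℕ) :
    ∑ m ∈ F, ‖a m x‖ ^ 2 ≤ (C * ‖x‖) ^ 2 := by
  obtain ⟨s, hs⟩ : ∃ s : ℝ, s = ∑ m ∈ F, ‖a m x‖ ^ 2 := ⟨_, rfl⟩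
  have hs0 : 0 ≤ s := by rw [hs]; positivity
  have h1 : (∑ m ∈ F, (starRingEnd 𝕜 (a m x)) • a m) x = (s : 𝕜) := by
    rw [sum_apply, hs]
    push_cast
    refine Finset.sum_congr rfl fun m _ => ?_
    show (starRingEnd 𝕜) (a m x) * a m x = _
    exact RCLike.conj_mul _
  have h2 := h.upa (fun m => starRingEnd 𝕜 (a m x)) F
  have h3 : ∑ m ∈ F, ‖starRingEnd 𝕜 (a m x)‖ ^ 2 = s := by
    rw [hs]
    refine Finset.sum_congr rfl fun m _ => ?_
    rw [RCLike.norm_conj]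
  rw [h3] at h2
  have h4 : s ≤ C * Real.sqrt s * ‖x‖ := by
    have h5 := (∑ m ∈ F, (starRingEnd 𝕜 (a m x)) • a m).le_opNorm x
    rw [h1, RCLike.norm_ofReal, abs_of_nonneg hs0] at h5
    exact h5.trans (mul_le_mul_of_nonneg_right h2 (norm_nonneg x))
  have hC := h.nonneg
  have hr0 : 0 ≤ Real.sqrt s := Real.sqrt_nonneg s
  have hr2 : Real.sqrt s * Real.sqrt s = s := Real.mul_self_sqrt hs0
  rw [← hs]
  rcases hr0.eq_or_lt with h6 | h6
  · rw [← h6] at hr2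
    have : s = 0 := by linarith
    rw [this]
    positivity
  · have h7 : Real.sqrt s ≤ C * ‖x‖ := by
      have h8 : Real.sqrt s * Real.sqrt s ≤ (C * ‖x‖) * Real.sqrt s := by
        rw [hr2]
        linarith
      exact le_of_mul_le_mul_right h8 h6
    calc s = Real.sqrt s ^ 2 := (Real.sq_sqrt hs0).symm
      _ ≤ (C * ‖x‖) ^ 2 := by gcongr

open Classical in
/-- the coefficients -/
noncomputable def t (a : ℕ → E →L[𝕜] 𝕜) (A : Set ℕ) (x : E) (m : ℕ) : 𝕜 := if m ∈ A then a m x else 0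

lemma t_add (a : ℕ → E →L[𝕜] 𝕜) (A : Set ℕ) (x y : E) (m : ℕ) :
    t a A (x + y) m = t a A x m + t a A y m := by
  unfold t
  split_ifs
  · exact map_add _ _ _
  · simp

lemma t_smul (a : ℕ → E →L[𝕜] 𝕜) (A : Set ℕ) (c : 𝕜) (x : E) (m : ℕ) :
    t a A (c • x) m = c * t a A x m := by
  unfold t
  split_ifs
  · rw [map_smul, smul_eq_mul]
  · simp

lemma t_norm (a : ℕ → E →L[𝕜] 𝕜) (A : Set ℕ) (x : E) (m : ℕ) : ‖t a A x m‖ ≤ ‖a m x‖ := by
  unfold t
  split_ifs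
  · exact le_rfl
  · rw [norm_zero]
    exact norm_nonneg _

lemma t_sum_le {a : ℕ → E →L[𝕜] 𝕜} {b : ℕ → E} {C : ℝ} (h : TwoEst C a b) (A : Set ℕ) (x : E)
    (F : Finset ℕ) : ‖∑ m ∈ F, t a A x m • b m‖ ≤ C * Real.sqrt (∑ m ∈ F, ‖a m x‖ ^ 2) := by
  refine (h.upb (t a A x) F).trans ?_
  refine mul_le_mul_of_nonneg_left (Real.sqrt_le_sqrt ?_) h.nonneg
  refine Finset.sum_le_sum fun m _ => ?_
  have := t_norm a A x m
  gcongr

lemma t_summable [CompleteSpace E] {a : ℕ → E →L[𝕜] 𝕜} {b : ℕ → E} {C : ℝ} (h : TwoEst C a b)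
    (A : Set ℕ) (x : E) : Summable (fun m => t a A x m • b m) := by
  have hC := h.nonneg
  have hsum : Summable fun m => ‖a m x‖ ^ 2 :=
    summable_of_sum_le (fun m => by positivity) (fun F => bessel h x F)
  rw [summable_iff_vanishing_norm] at hsum ⊢
  intro ε hε
  obtain ⟨s, hs⟩ := hsum ((ε / (C + 1)) ^ 2) (by positivity)
  refine ⟨s, fun F hF => ?_⟩
  have h1 := hs F hF
  have h0 : 0 ≤ ∑ m ∈ F, ‖a m x‖ ^ 2 := by positivity
  rw [Real.norm_of_nonneg h0] at h1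
  have h2 : Real.sqrt (∑ m ∈ F, ‖a m x‖ ^ 2) ≤ ε / (C + 1) := by
    rw [Real.sqrt_le_left (by positivity)]
    exact h1.le
  calc ‖∑ m ∈ F, t a A x m • b m‖ ≤ C * Real.sqrt (∑ m ∈ F, ‖a m x‖ ^ 2) := t_sum_le h A x F
    _ ≤ C * (ε / (C + 1)) := by gcongr
    _ < ε := by
        rw [mul_div_assoc', div_lt_iff₀ (by positivity)]
        nlinarith

end OpX

open OpX in
theorem op {𝕜 : Type*} [RCLike 𝕜] {E : Type*} [NormedAddCommGroup E] [NormedSpace 𝕜 E] :
    StOp 𝕜 E := by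
  classical
  intro _ a b C h
  refine ⟨fun x F => bessel h x F, fun A => ?_⟩
  have hC := h.nonneg
  let T0 : E →ₗ[𝕜] E :=
    { toFun := fun x => ∑' m, t a A x m • b m
      map_add' := by
        intro x y
        rw [← (t_summable h A x).tsum_add (t_summable h A y)]
        refine tsum_congr fun m => ?_
        rw [t_add, add_smul]
      map_smul' := by
        intro c x
        rw [RingHom.id_apply, ← (t_summable h A x).tsum_const_smul c]
        refine tsum_congr fun m => ?_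
        rw [t_smul, mul_smul] }
  have hT0 : ∀ x, HasSum (fun m => t a A x m • b m) (T0 x) := fun x => (t_summable h A x).hasSum
  have hbd : ∀ x, ‖T0 x‖ ≤ (C * C) * ‖x‖ := by
    intro x
    refine le_of_tendsto (hT0 x).norm (Eventually.of_forall fun F => ?_)
    refine (t_sum_le h A x F).trans ?_
    have h1 : Real.sqrt (∑ m ∈ F, ‖a m x‖ ^ 2) ≤ C * ‖x‖ := by
      rw [Real.sqrt_le_left (by positivity)]
      exact bessel h x F
    calc C * Real.sqrt (∑ m ∈ F, ‖a m x‖ ^ 2) ≤ C * (C * ‖x‖) := by gcongr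
      _ = (C * C) * ‖x‖ := by ring
  refine ⟨T0.mkContinuous (C * C) hbd, fun x n hn ε hε hF => ?_⟩
  rw [LinearMap.mkContinuous_apply]
  have hlim : Tendsto (fun F : Finset ℕ => ‖∑ m ∈ F, t a A x m • b m - a n x • b n‖) atTop
      (𝓝 ‖T0 x - a n x • b n‖) := (Tendsto.sub_const (hT0 x) _).norm
  refine le_of_tendsto hlim ?_
  filter_upwards [eventually_ge_atTop ({n} : Finset ℕ)] with F hnF
  have hnF' : n ∈ F := hnF (Finset.mem_singleton_self n)
  have h1 : ∑ m ∈ F, t a A x m • b m - a n x • b n = ∑ m ∈ F.erase n, t a A x m • b m := by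
    rw [← Finset.add_sum_erase F _ hnF']
    have h2 : t a A x n = a n x := by
      unfold t
      rw [if_pos hn]
    rw [h2]
    abel
  rw [h1]
  refine (h.upb (t a A x) (F.erase n)).trans ?_
  refine mul_le_mul_of_nonneg_left (Real.sqrt_le_sqrt ?_) hC
  have h3 : ∑ m ∈ F.erase n, ‖t a A x m‖ ^ 2 = ∑ m ∈ (F.erase n).filter (· ∈ A), ‖a m x‖ ^ 2 := by
    rw [Finset.sum_filter]
    refine Finset.sum_congr rfl fun m _ => ?_
    unfold t
    by_cases hm : m ∈ A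
    · rw [if_pos hm, if_pos hm]
    · rw [if_neg hm, if_neg hm, norm_zero]
      norm_num
  rw [h3]
  refine hF _ fun m hm => ?_
  rw [Finset.mem_filter, Finset.mem_erase] at hm
  exact ⟨hm.2, hm.1.1⟩

end Pool.Agent.R286.UW
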