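import Pool.Agent.R286.UW.Stm

/-!
# SEL: selection of a set with small off-diagonal row sums
-/

set_option autoImplicit false

open Filter Topology

namespace Pool.Agent.R286.UW

namespace SelAux

theorem tail {f : ℕ → ℝ} {C : ℝ} (h0 : ∀ m, 0 ≤ f m) (hC : ∀ F : Finset ℕ, ∑ m ∈ F, f m ≤ C)
    {δ : ℝ} (hδ : 0 < δ) : ∃ N : ℕ, ∀ F : Finset ℕ, (∀ m ∈ F, N ≤ m) → ∑ m ∈ F, f m ≤ δ := by
  have hs : Summable f := summable_of_sum_le h0 hC
  obtain ⟨s, hs⟩ := summable_iff_vanishing_norm.1 hs δ hδ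
  refine ⟨s.sup id + 1, fun F hF => ?_⟩
  have hd : Disjoint F s := by
    rw [Finset.disjoint_left]
    intro m hm hms
    have h1 := hF m hm
    have h2 : m ≤ s.sup id := Finset.le_sup (f := id) hms
    omega
  exact (le_abs_self _).trans (hs F hd).le

theorem le_mem {𝒰 : Ultrafilter ℕ} (h : ∀ n : ℕ, ({n} : Set ℕ) ∉ 𝒰) (N : ℕ) :
    {n : ℕ | N ≤ n} ∈ 𝒰 := by
  rcases 𝒰.le_cofinite_or_eq_pure with h1 | ⟨a, ha⟩
  · have h2 : {n : ℕ | N ≤ n} ∈ (cofinite : Filter ℕ) := by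
      rw [mem_cofinite]
      refine (Set.finite_lt_nat N).subset ?_
      intro n hn
      have : ¬ N ≤ n := hn
      show n < N
      omega
    exact h1 h2
  · exact absurd (by rw [ha]; exact Ultrafilter.mem_pure.2 rfl) (h a)

theorem geo (F : Finset ℕ) : ∑ m ∈ F, (1 / 2 : ℝ) ^ (m + 2) ≤ 1 / 2 := by
  have h1 : ∑ m ∈ F, (1 / 2 : ℝ) ^ m ≤ 2 := by
    have h := summable_geometric_two.sum_le_tsum F (fun _ _ => by positivity)
    rwa [tsum_geometric_two] at h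
  have h2 : ∑ m ∈ F, (1 / 2 : ℝ) ^ (m + 2) = (1 / 4) * ∑ m ∈ F, (1 / 2 : ℝ) ^ m := by
    rw [Finset.mul_sum]
    refine Finset.sum_congr rfl fun m _ => ?_
    rw [pow_add]; ring
  rw [h2]; linarith

end SelAux

open SelAux in
theorem sel (h : StDiag) : StSel := by
  intro 𝒰 hU c C h0 hC ε hε
  have hle : ∀ n m, c n m ≤ C := by
    intro n m
    have := hC n {m}
    rwa [Finset.sum_singleton] at this
  have hlim : ∀ m, ∃ l, Tendsto (fun n => c n m) (𝒰 : Filter ℕ) (𝓝 l) := by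
    intro m
    have h1 : ((𝒰.map (fun n => c n m) : Ultrafilter ℝ) : Filter ℝ) ≤ 𝓟 (Set.Icc 0 C) := by
      rw [le_principal_iff]
      show {n | c n m ∈ Set.Icc 0 C} ∈ 𝒰
      filter_upwards with n using ⟨h0 n m, hle n m⟩
    obtain ⟨l, _, hl⟩ := isCompact_Icc.ultrafilter_le_nhds _ h1
    exact ⟨l, hl⟩
  choose cb hcb using hlim
  have hcb0 : ∀ m, 0 ≤ cb m := fun m => ge_of_tendsto' (hcb m) (fun n => h0 n m)
  have hcbC : ∀ F : Finset ℕ, ∑ m ∈ F, cb m ≤ C := fun F =>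
    le_of_tendsto' (tendsto_finsetSum F (fun m _ => hcb m)) (fun n => hC n F)
  obtain ⟨M, hM⟩ := tail hcb0 hcbC (show (0 : ℝ) < ε / 4 by positivity)
  have hN : ∀ n, ∃ N : ℕ, ∀ F : Finset ℕ, (∀ m ∈ F, N ≤ m) → ∑ m ∈ F, c n m ≤ ε / 4 :=
    fun n => tail (h0 n) (hC n) (by positivity)
  choose N hN using hN
  obtain ⟨A, hA, hAB⟩ := h 𝒰 hU
    (fun j => {n | c n j ≤ cb j + ε * (1 / 2) ^ (j + 2)} ∩ {n | N j ≤ n}) (by
      intro j
      refine inter_mem ?_ (le_mem hU.1 _)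
      have : cb j < cb j + ε * (1 / 2) ^ (j + 2) := by
        have : 0 < ε * (1 / 2) ^ (j + 2) := by positivity
        linarith
      have h2 := (hcb j).eventually_le_const this
      exact h2)
  refine ⟨A ∩ {n | M ≤ n}, inter_mem hA (le_mem hU.1 M), ?_⟩
  rintro n ⟨hn, _⟩ F hF
  rw [← Finset.sum_filter_add_sum_filter_not F (fun m => m < n)]
  have h1 : ∑ m ∈ F.filter (fun m => m < n), c n m ≤
      ∑ m ∈ F.filter (fun m => m < n), (cb m + ε * (1 / 2) ^ (m + 2)) := by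
    refine Finset.sum_le_sum fun m hm => ?_
    rw [Finset.mem_filter] at hm
    exact (hAB m (hF m hm.1).1.1 n hn hm.2).1
  rw [Finset.sum_add_distrib, ← Finset.mul_sum] at h1
  have h2 := hM (F.filter (fun m => m < n)) (by
    intro m hm
    rw [Finset.mem_filter] at hm
    exact (hF m hm.1).1.2)
  have h3 := geo (F.filter (fun m => m < n))
  have h4 := hN n (F.filter (fun m => ¬ m < n)) (by
    intro m hm
    rw [Finset.mem_filter] at hm
    have h5 := hF m hm.1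
    exact (hAB n hn m h5.1.1 (by have := h5.2; have := hm.2; omega)).2)
  have h5 : ε * ∑ m ∈ F.filter (fun m => m < n), (1 / 2 : ℝ) ^ (m + 2) ≤ ε * (1 / 2) :=
    mul_le_mul_of_nonneg_left h3 hε.le
  linarith

end Pool.Agent.R286.UW
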