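import Pool.Agent.R286.UW.Stm

/-!
# Piece SOT: approximation in the strong operator topology
-/

set_option autoImplicit false

open Filter Topology
open scoped ENNReal

namespace Pool.Agent.R286.UW

theorem sot {𝕜 : Type*} [RCLike 𝕜] {E : Type*} [NormedAddCommGroup E] [NormedSpace 𝕜 E]
    {Y : Type*} [NormedAddCommGroup Y] [NormedSpace 𝕜 Y] (hs : StSel) (ho : StOp 𝕜 E)
    (hu : StUpop 𝕜 E Y) : StSot 𝕜 E Y := by
  classical
  intro hcomp 𝒰 ι hι hsel a b C M h hM Φ hΦ F ε hε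
  obtain ⟨hbes, hop⟩ := ho hcomp a (fun n => b n) C h
  have hC := h.nonneg
  choose x hx using hι.surj
  have hxn : ∀ (y : Y) (n : ℕ), ‖x y n‖ ≤ ‖x y‖ := fun y n =>
    lp.norm_apply_le_norm (p := ∞) (by simp) (x y) n
  obtain ⟨δ, hδ⟩ : ∃ δ : ℝ, δ = (ε / (2 * (C + 1))) ^ 2 := ⟨_, rfl⟩
  have hδ0 : 0 < δ := by rw [hδ]; positivity
  have hCδ : C * Real.sqrt δ < ε := by
    rw [hδ, Real.sqrt_sq (by positivity), mul_div_assoc', div_lt_iff₀ (by positivity)]
    nlinarith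
  obtain ⟨A, hA, hA2⟩ := hs 𝒰 hsel (fun n m => ∑ y ∈ F, ‖a m (x y n)‖ ^ 2)
    (∑ y ∈ F, (C * ‖x y‖) ^ 2) (fun n m => by positivity) (by
      intro n G
      rw [Finset.sum_comm]
      refine Finset.sum_le_sum fun y _ => ?_
      refine (hbes (x y n) G).trans ?_
      have := hxn y n
      gcongr) δ hδ0
  obtain ⟨T, hT⟩ := hop A
  obtain ⟨T', hT'⟩ := hu 𝒰 ι hι T
  refine ⟨T, T', hT', fun y hy => ?_⟩
  have hmem : Memℓp (fun n => T (x y n)) ∞ := by
    refine memℓp_infty ⟨‖T‖ * ‖x y‖, ?_⟩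
    rintro _ ⟨n, rfl⟩
    exact (T.le_opNorm _).trans (mul_le_mul_of_nonneg_left (hxn y n) (norm_nonneg _))
  obtain ⟨z, hz⟩ : ∃ z : BS E, z = ⟨fun n => T (x y n), hmem⟩ := ⟨_, rfl⟩
  have hzn : ∀ n, z n = T (x y n) := fun n => by rw [hz]
  have h1 : T' y = ι z := by
    have := hT' (x y) z hzn
    rwa [hx y] at this
  have h2 : Φ y • ι b - T' y = ι (Φ y • b - z) := by
    rw [h1, map_sub, map_smul]
  rw [h2]
  refine lt_of_le_of_lt ?_ hCδ
  have hlim : Tendsto (fun n => ‖Φ y - a n (x y n)‖ * ‖b‖ + C * Real.sqrt δ) (𝒰 : Filter ℕ)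
      (𝓝 (‖Φ y - Φ y‖ * ‖b‖ + C * Real.sqrt δ)) := by
    have h3 := hΦ (x y)
    rw [hx y] at h3
    exact ((h3.const_sub (Φ y)).norm.mul_const _).add_const _
  rw [sub_self, norm_zero, zero_mul, zero_add] at hlim
  refine le_of_tendsto_of_tendsto (hι.norm (Φ y • b - z)) hlim ?_
  filter_upwards [hA] with n hn
  have h4 : (Φ y • b - z : BS E) n = Φ y • b n - T (x y n) := by
    rw [← hzn]
    rfl
  rw [h4]
  have h5 : Φ y • b n - T (x y n) = (Φ y - a n (x y n)) • b n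
      - (T (x y n) - a n (x y n) • b n) := by
    rw [sub_smul]
    abel
  rw [h5]
  refine (norm_sub_le _ _).trans (add_le_add ?_ ?_)
  · rw [norm_smul]
    exact mul_le_mul_of_nonneg_left (lp.norm_apply_le_norm (p := ∞) (by simp) b n) (norm_nonneg _)
  · refine hT (x y n) n hn δ hδ0.le fun G hG => ?_
    refine le_trans ?_ (hA2 n hn G hG)
    refine Finset.sum_le_sum fun m _ => ?_
    exact Finset.single_le_sum (f := fun y => ‖a m (x y n)‖ ^ 2) (fun y _ => by positivity) hy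

end Pool.Agent.R286.UW
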