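import Pool.Agent.R286.UW.Stm

/-!
# SYS: independent copies of the one variable functions (subtask UW-SYS)
-/

set_option autoImplicit false

open Filter Topology MeasureTheory ProbabilityTheory
open scoped ENNReal

namespace Pool.Agent.R286.UW

namespace SysAux

theorem bm_comp {h : unitInterval → ℝ} (hh : BM h) {U : unitInterval → unitInterval}
    (hU : Measurable U) : BM (fun t => h (U t)) := by
  obtain ⟨B, hB⟩ := hh.2
  exact ⟨hh.1.comp hU, B, fun t => hB _⟩

theorem bm_const_mul {h : unitInterval → ℝ} (hh : BM h) (c : ℝ) : BM (fun t => c * h t) := by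
  obtain ⟨B, hB⟩ := hh.2
  refine ⟨hh.1.const_mul c, |c| * B, fun t => ?_⟩
  rw [abs_mul]
  exact mul_le_mul_of_nonneg_left (hB t) (abs_nonneg _)

theorem bm_mul {h g : unitInterval → ℝ} (hh : BM h) (hg : BM g) : BM (fun t => h t * g t) := by
  obtain ⟨B, hB⟩ := hh.2
  obtain ⟨D, hD⟩ := hg.2
  refine ⟨hh.1.mul hg.1, B * D, fun t => ?_⟩
  rw [abs_mul]
  exact mul_le_mul (hB t) (hD t) (abs_nonneg _) ((abs_nonneg _).trans (hB t))

theorem bm_sum (F : Finset ℕ) (t : ℕ → ℝ) (h : ℕ → unitInterval → ℝ) (hh : ∀ n, BM (h n)) :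
    BM (fun x => ∑ n ∈ F, t n * h n x) := by
  refine ⟨Finset.measurable_sum F (fun n _ => (hh n).1.const_mul (t n)), ?_⟩
  choose B hB using fun n => (hh n).2
  refine ⟨∑ n ∈ F, |t n| * B n, fun x => ?_⟩
  refine (Finset.abs_sum_le_sum_abs _ _).trans (Finset.sum_le_sum fun n _ => ?_)
  rw [abs_mul]
  exact mul_le_mul_of_nonneg_left (hB n x) (abs_nonneg _)

theorem int_comp {U : unitInterval → unitInterval} (hU : Measurable U)
    (hm : (volume : Measure unitInterval).map U = volume) {φ : unitInterval → ℝ}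
    (hφ : Measurable φ) : ∫ t, φ (U t) = ∫ t, φ t := by
  conv_rhs => rw [← hm]
  rw [integral_map hU.aemeasurable hφ.aestronglyMeasurable]

theorem bm_integrable {φ : unitInterval → ℝ} (hφ : BM φ) :
    Integrable φ (volume : Measure unitInterval) := by
  obtain ⟨B, hB⟩ := hφ.2
  exact Integrable.of_bound hφ.1.aestronglyMeasurable B (Eventually.of_forall hB)

theorem bm_memLp {φ : unitInterval → ℝ} (hφ : BM φ) (p : ℝ≥0∞) :
    MemLp φ p (volume : Measure unitInterval) := by
  obtain ⟨B, hB⟩ := hφ.2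
  exact MemLp.of_bound hφ.1.aestronglyMeasurable B (Eventually.of_forall hB)

theorem nrm_eq {h : unitInterval → ℝ} (hh : BM h) {s : ℝ} (hs : 0 < s) :
    eLpNorm h (ENNReal.ofReal s) (volume : Measure unitInterval) = ENNReal.ofReal (nrm s h) := by
  have h1 : ENNReal.ofReal s ≠ 0 := by
    rw [Ne, ENNReal.ofReal_eq_zero]; linarith
  rw [MemLp.eLpNorm_eq_integral_rpow_norm h1 ENNReal.ofReal_ne_top (bm_memLp hh _)]
  unfold nrm
  rw [ENNReal.toReal_ofReal hs.le, one_div]
  rfl

theorem nrm_nonneg (s : ℝ) (h : unitInterval → ℝ) : 0 ≤ nrm s h := by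
  unfold nrm
  exact Real.rpow_nonneg (integral_nonneg fun t => Real.rpow_nonneg (abs_nonneg _) _) _

theorem nrm_mono {h : unitInterval → ℝ} (hh : BM h) {s q : ℝ} (hs : 0 < s) (hsq : s ≤ q) :
    nrm s h ≤ nrm q h := by
  have hq : 0 < q := lt_of_lt_of_le hs hsq
  have h1 := eLpNorm_le_eLpNorm_of_exponent_le (μ := (volume : Measure unitInterval))
    (ENNReal.ofReal_le_ofReal hsq) hh.1.aestronglyMeasurable
  rw [nrm_eq hh hs, nrm_eq hh hq] at h1
  exact (ENNReal.ofReal_le_ofReal_iff (nrm_nonneg _ _)).1 h1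

theorem nrm_const_mul (h : unitInterval → ℝ) {s : ℝ} (hs : 0 < s) (c : ℝ) :
    nrm s (fun t => c * h t) = |c| * nrm s h := by
  unfold nrm
  have h1 : ∀ t, |c * h t| ^ s = |c| ^ s * |h t| ^ s := fun t => by
    rw [abs_mul, Real.mul_rpow (abs_nonneg _) (abs_nonneg _)]
  simp_rw [h1]
  rw [integral_const_mul, Real.mul_rpow (Real.rpow_nonneg (abs_nonneg _) _)
    (integral_nonneg fun t => Real.rpow_nonneg (abs_nonneg _) _), ← Real.rpow_mul (abs_nonneg _),
    mul_one_div_cancel hs.ne', Real.rpow_one]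

theorem nrm_two {h : unitInterval → ℝ} : nrm 2 h = Real.sqrt (∫ t, h t ^ 2) := by
  unfold nrm
  rw [Real.sqrt_eq_rpow]
  congr 1
  refine integral_congr_ae (Eventually.of_forall fun t => ?_)
  simp only
  rw [Real.rpow_two, sq_abs]

theorem nrm_zero {s : ℝ} (hs : 0 < s) : nrm s (fun _ => 0) = 0 := by
  have := nrm_const_mul (fun _ => 0) hs 0
  simpa using this

/-- orthogonality -/
theorem ortho {X : ℕ → unitInterval → ℝ} (hX : ∀ n, BM (X n))
    (hi : iIndepFun X (volume : Measure unitInterval)) (h0 : ∀ n, ∫ t, X n t = 0) {m2 : ℝ}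
    (h2 : ∀ n, ∫ t, X n t * X n t = m2) (t : ℕ → ℝ) (F : Finset ℕ) :
    ∫ x, (∑ n ∈ F, t n * X n x) ^ 2 = m2 * ∑ n ∈ F, t n ^ 2 := by
  have h1 : ∀ x, (∑ n ∈ F, t n * X n x) ^ 2
      = ∑ n ∈ F, ∑ m ∈ F, (t n * t m) * (X n x * X m x) := fun x => by
    rw [sq, Finset.sum_mul_sum]
    refine Finset.sum_congr rfl fun n _ => Finset.sum_congr rfl fun m _ => ?_
    ring
  simp_rw [h1]
  have hint : ∀ n m, Integrable (fun x => (t n * t m) * (X n x * X m x))
      (volume : Measure unitInterval) := fun n m =>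
    bm_integrable (bm_const_mul (bm_mul (hX n) (hX m)) _)
  rw [integral_finsetSum _ fun n _ => integrable_finsetSum _ fun m _ => hint n m]
  rw [Finset.mul_sum]
  refine Finset.sum_congr rfl fun n hn => ?_
  rw [integral_finsetSum _ fun m _ => hint n m]
  rw [Finset.sum_eq_single n]
  · rw [integral_const_mul, h2]; ring
  · intro m _ hmn
    rw [integral_const_mul]
    have hnm : IndepFun (X n) (X m) (volume : Measure unitInterval) := hi.indepFun hmn.symm
    have h3 : ∫ x, X n x * X m x = (∫ x, X n x) * ∫ x, X m x :=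
      hnm.integral_fun_mul_eq_mul_integral (hX n).1.aestronglyMeasurable
        (hX m).1.aestronglyMeasurable
    rw [h3, h0 n]
    ring
  · intro h; exact absurd hn h

end SysAux

open SysAux

theorem sys (hI : StIid) (hM : StMom) (hO : StOne) : StSys := by
  intro q hq
  have hq0 : (0 : ℝ) < q := by linarith
  have hq1 : (0 : ℝ) < q - 1 := by linarith
  have hq' : (0 : ℝ) < q / (q - 1) := div_pos hq0 hq1
  have hq'2 : q / (q - 1) ≤ 2 := by
    rw [div_le_iff₀ hq1]; linarith
  have hq'q : q / (q - 1) ≤ q := hq'2.trans hq.le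
  obtain ⟨U, hU, hUm, hUi⟩ := hI
  obtain ⟨C, hC1, hC⟩ := hM q (by linarith)
  obtain ⟨β, r, f, g, H, hβ0, hβ1, hv⟩ := hO q hq
  have hC0 : (0 : ℝ) ≤ C := by linarith
  -- independence of the copies
  have hind : ∀ (c : ℕ → ℝ) (h : unitInterval → ℝ), Measurable h →
      iIndepFun (fun n x => c n * h (U n x)) (volume : Measure unitInterval) := by
    intro c h hh
    exact hUi.comp (fun n s => c n * h s) (fun n => hh.const_mul (c n))
  have tr : ∀ (n : ℕ) (φ : unitInterval → ℝ), Measurable φ → ∫ t, φ (U n t) = ∫ t, φ t :=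
    fun n φ hφ => int_comp (hU n) (hUm n) hφ
  -- the Rademacher part
  have hrr : ∀ t, |r t| = 1 := by
    intro t
    rcases hv.r1 t with h | h <;> rw [h] <;> simp
  have nr : ∀ s : ℝ, 0 < s → ∀ n, nrm s (fun t => r (U n t)) = 1 := by
    intro s hs n
    unfold nrm
    simp [hrr]
  have upr : ∀ (t : ℕ → ℝ) (F : Finset ℕ),
      nrm q (fun x => ∑ n ∈ F, t n * r (U n x)) ≤ C * Real.sqrt (∑ n ∈ F, t n ^ 2) := by
    intro t F
    set σ := Real.sqrt (∑ n ∈ F, t n ^ 2) with hσ
    have hσsq : σ ^ 2 = ∑ n ∈ F, t n ^ 2 := Real.sq_sqrt (Finset.sum_nonneg fun n _ => sq_nonneg _)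
    rcases (Real.sqrt_nonneg (∑ n ∈ F, t n ^ 2)).eq_or_lt with h0 | hpos
    · have hs0 : ∑ n ∈ F, t n ^ 2 = 0 := by
        rw [← hσsq, hσ, ← h0]; ring
      have ht0 : ∀ n ∈ F, t n = 0 := by
        intro n hn
        have := (Finset.sum_eq_zero_iff_of_nonneg (fun n _ => sq_nonneg (t n))).1 hs0 n hn
        exact pow_eq_zero_iff (two_ne_zero) |>.1 this
      have hf0 : (fun x => ∑ n ∈ F, t n * r (U n x)) = fun _ => 0 := by
        funext x
        exact Finset.sum_eq_zero fun n hn => by rw [ht0 n hn, zero_mul]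
      rw [hf0, nrm_zero hq0]
      exact mul_nonneg hC0 (Real.sqrt_nonneg _)
    · have hσ0 : 0 < σ := hpos
      have hmain := hC (fun n x => (t n / σ) * r (U n x)) (fun n => (t n / σ) ^ 2) F
        (fun n => bm_const_mul (bm_comp hv.bmr (hU n)) _)
        (hind (fun n => t n / σ) r hv.bmr.1) ?_ ?_ ?_
      · have heq : (fun x => ∑ n ∈ F, t n * r (U n x))
            = fun x => σ * ∑ n ∈ F, (t n / σ) * r (U n x) := by
          funext x
          rw [Finset.mul_sum]
          refine Finset.sum_congr rfl fun n _ => ?_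
          field_simp
        rw [heq, nrm_const_mul _ hq0, abs_of_pos hσ0, mul_comm C σ]
        exact mul_le_mul_of_nonneg_left hmain hσ0.le
      · intro n _
        have h1 := tr n (fun s => Real.exp ((t n / σ) * r s)) (hv.bmr.1.const_mul _).exp
        beta_reduce at h1 ⊢
        rw [h1, hv.expr]
        refine (Real.cosh_le_exp_half_sq _).trans (Real.exp_le_exp.2 ?_)
        nlinarith [sq_nonneg (t n / σ)]
      · intro n _
        have h1 := tr n (fun s => Real.exp (-(t n / σ) * r s)) (hv.bmr.1.const_mul _).exp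
        have h2 : ∀ x, -((t n / σ) * r (U n x)) = -(t n / σ) * r (U n x) := fun x => by ring
        simp only [h2] at h1 ⊢
        rw [h1, hv.expr]
        refine (Real.cosh_le_exp_half_sq _).trans (Real.exp_le_exp.2 ?_)
        nlinarith [sq_nonneg (t n / σ)]
      · have : ∑ n ∈ F, (t n / σ) ^ 2 = 1 := by
          simp_rw [div_pow]
          rw [← Finset.sum_div, hσsq]
          rw [← hσsq]
          exact div_self (pow_ne_zero 2 hσ0.ne')
        exact this.le
  refine ⟨C, β, fun n x => r (U n x), fun k n x => f k (U n x), fun k n x => g k (U n x), hC1,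
    hβ0, hβ1, ?_⟩
  refine ⟨fun n => bm_comp hv.bmr (hU n), fun k n => bm_comp (hv.bmf k) (hU n),
    fun k n => bm_comp (hv.bmg k) (hU n), fun n => (nr q hq0 n).le, fun n => (nr _ hq' n).le,
    ?_, ?_, upr, ?_, ?_, ?_, ?_, ?_⟩
  · intro k n
    unfold nrm
    have h1 := tr n (fun s => |f k s| ^ q) (by
      have := (hv.bmf k).1
      fun_prop)
    beta_reduce at h1
    rw [h1, hv.nf k, Real.one_rpow]
  · intro k n
    unfold nrm
    have h1 := tr n (fun s => |g k s| ^ (q / (q - 1))) (by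
      have := (hv.bmg k).1
      fun_prop)
    beta_reduce at h1
    rw [h1, hv.ng k, Real.one_rpow]
  · intro t F
    exact (nrm_mono (bm_sum F t _ fun n => bm_comp hv.bmr (hU n)) hq' hq'q).trans (upr t F)
  · intro k
    set m2 := ∫ t, g k t * g k t with hm2
    refine ⟨Real.sqrt m2, Real.sqrt_nonneg _, fun t F => ?_⟩
    have hb : ∀ n, BM (fun x => g k (U n x)) := fun n => bm_comp (hv.bmg k) (hU n)
    have hi : iIndepFun (fun n x => g k (U n x)) (volume : Measure unitInterval) :=
      hUi.comp (fun n s => g k s) (fun n => (hv.bmg k).1)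
    have h0 : ∀ n, ∫ x, g k (U n x) = 0 := fun n => by
      rw [tr n (g k) (hv.bmg k).1, hv.intg k]
    have h2 : ∀ n, ∫ x, g k (U n x) * g k (U n x) = m2 := fun n =>
      tr n (fun s => g k s * g k s) ((hv.bmg k).1.mul (hv.bmg k).1)
    have h3 := ortho hb hi h0 h2 t F
    calc nrm (q / (q - 1)) (fun x => ∑ n ∈ F, t n * g k (U n x))
        ≤ nrm 2 (fun x => ∑ n ∈ F, t n * g k (U n x)) := nrm_mono (bm_sum F t _ hb) hq' hq'2
      _ = Real.sqrt (m2 * ∑ n ∈ F, t n ^ 2) := by rw [nrm_two, h3]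
      _ = Real.sqrt m2 * Real.sqrt (∑ n ∈ F, t n ^ 2) := by
          rw [Real.sqrt_mul (integral_nonneg fun t => mul_self_nonneg _)]
  · intro k
    set w := β ^ (k + 1) with hw
    have hw0 : 0 < w := pow_pos hβ0 _
    refine ⟨max 1 ⌈(H k / w) ^ 2⌉₊, fun F θ hF hθ => ?_⟩
    have hN1 : 1 ≤ F.card := (le_max_left _ _).trans hF
    have hN : (0 : ℝ) < F.card := by exact_mod_cast hN1
    have hHN : (H k / w) ^ 2 ≤ (F.card : ℝ) :=
      (Nat.le_ceil _).trans (by exact_mod_cast (le_max_right _ _).trans hF)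
    have hsN : 0 < Real.sqrt F.card := Real.sqrt_pos.2 hN
    have hsN2 : Real.sqrt F.card ^ 2 = F.card := Real.sq_sqrt hN.le
    have hHs : H k / w ≤ Real.sqrt F.card := Real.le_sqrt_of_sq_le hHN
    set S := w * Real.sqrt F.card with hS
    have hS0 : 0 < S := mul_pos hw0 hsN
    have hHS : H k ≤ S := by
      rw [div_le_iff₀ hw0] at hHs
      linarith
    have hθ2 : ∀ n, (θ n / S) ^ 2 = 1 / S ^ 2 := fun n => by
      rw [div_pow]
      rcases hθ n with h | h <;> rw [h] <;> norm_num
    have hθa : ∀ n, |θ n / S| * H k ≤ 1 := fun n => by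
      have : |θ n| = 1 := by rcases hθ n with h | h <;> rw [h] <;> simp
      rw [abs_div, this, abs_of_pos hS0, one_div, inv_mul_le_iff₀ hS0]
      linarith
    have hval : 1 / S ^ 2 * w ^ 2 = 1 / F.card := by
      rw [hS, mul_pow, hsN2]
      field_simp
    have hmain := hC (fun n x => (θ n / S) * f k (U n x)) (fun _ => 1 / (F.card : ℝ)) F
      (fun n => bm_const_mul (bm_comp (hv.bmf k) (hU n)) _)
      (hind (fun n => θ n / S) (f k) (hv.bmf k).1) ?_ ?_ ?_
    · have heq : (fun x => ∑ n ∈ F, θ n * f k (U n x))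
          = fun x => S * ∑ n ∈ F, (θ n / S) * f k (U n x) := by
        funext x
        rw [Finset.mul_sum]
        refine Finset.sum_congr rfl fun n _ => ?_
        field_simp
      rw [heq, nrm_const_mul _ hq0, abs_of_pos hS0]
      calc S * nrm q (fun t => ∑ n ∈ F, θ n / S * f k (U n t)) ≤ S * C :=
            mul_le_mul_of_nonneg_left hmain hS0.le
        _ = C * w * Real.sqrt F.card := by rw [hS]; ring
    · intro n _
      have h1 := tr n (fun s => Real.exp ((θ n / S) * f k s)) ((hv.bmf k).1.const_mul _).exp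
      beta_reduce at h1 ⊢
      rw [h1]
      refine (hv.expf k (θ n / S) (hθa n)).trans ?_
      rw [hθ2, hval]
      linarith [Real.add_one_le_exp (1 / (F.card : ℝ))]
    · intro n _
      have h1 := tr n (fun s => Real.exp (-(θ n / S) * f k s)) ((hv.bmf k).1.const_mul _).exp
      have h2 : ∀ x, -((θ n / S) * f k (U n x)) = -(θ n / S) * f k (U n x) := fun x => by ring
      simp only [h2] at h1 ⊢
      rw [h1]
      refine (hv.expf k (-(θ n / S)) (by rw [abs_neg]; exact hθa n)).trans ?_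
      rw [neg_sq, hθ2, hval]
      linarith [Real.add_one_le_exp (1 / (F.card : ℝ))]
    · rw [Finset.sum_const, nsmul_eq_mul, mul_one_div_cancel hN.ne']
  · intro n
    have h1 : ∀ t, r (U n t) * r (U n t) = 1 := fun t => by
      rcases hv.r1 (U n t) with h | h <;> rw [h] <;> norm_num
    simp [h1]
  · intro j k n
    rw [tr n (fun s => f j s * g k s) ((hv.bmf j).1.mul (hv.bmg k).1)]
    exact hv.pair j k

end Pool.Agent.R286.UW
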