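import Pool.Agent.R286.UW.Stm

/-!
# The quotient norm of the ultrapower (piece UPX of the project UW)
-/

set_option autoImplicit false

open Filter Topology MeasureTheory
open scoped ENNReal

namespace Pool.Agent.R286.UW

namespace UPX

variable {𝕜 : Type*} [RCLike 𝕜] {E : Type*} [NormedAddCommGroup E] [NormedSpace 𝕜 E]

theorem apply_le (x : BS E) (n : ℕ) : ‖x n‖ ≤ ‖x‖ :=
  lp.norm_apply_le_norm (p := ∞) (by simp) x n

open Classical in
/-- the sequence `x` cut off outside `A` -/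
noncomputable def cut (x : BS E) (A : Set ℕ) : BS E :=
  ⟨fun n => if n ∈ A then x n else 0, memℓp_infty ⟨‖x‖, by
    rintro _ ⟨n, rfl⟩
    by_cases h : n ∈ A
    · simp only [if_pos h]
      exact apply_le x n
    · simp only [if_neg h, norm_zero]
      exact norm_nonneg _⟩⟩

theorem cut_of_mem (x : BS E) {A : Set ℕ} {n : ℕ} (h : n ∈ A) : cut x A n = x n :=
  if_pos h

theorem cut_of_notMem (x : BS E) {A : Set ℕ} {n : ℕ} (h : n ∉ A) : cut x A n = 0 :=
  if_neg h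

end UPX

theorem upx {𝕜 : Type*} [RCLike 𝕜] {E : Type*} [NormedAddCommGroup E] [NormedSpace 𝕜 E] :
    StUpx 𝕜 E := by
  intro 𝒰
  refine ⟨Submodule.mkQ_surjective _, fun x => ?_⟩
  -- the limit exists
  obtain ⟨l, hl⟩ : ∃ l : ℝ, Tendsto (fun n => ‖x n‖) (𝒰 : Filter ℕ) (𝓝 l) := by
    have hb : ∀ n, ‖x n‖ ∈ Set.Icc (0 : ℝ) ‖x‖ := fun n => ⟨norm_nonneg _, UPX.apply_le x n⟩
    have hc : IsCompact (Set.Icc (0 : ℝ) ‖x‖) := isCompact_Icc
    obtain ⟨l, -, h⟩ := hc.ultrafilter_le_nhds (𝒰.map (fun n => ‖x n‖)) (by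
      rw [Filter.le_principal_iff]
      exact Filter.mem_map.2 (Filter.univ_mem' hb))
    exact ⟨l, h⟩
  have hl0 : 0 ≤ l := ge_of_tendsto' hl (fun n => norm_nonneg _)
  suffices h : ‖(nullSub 𝕜 E 𝒰).mkQ x‖ = l by
    rw [h]
    exact hl
  apply le_antisymm
  · apply le_of_forall_pos_le_add
    intro ε hε
    have hA : {n | ‖x n‖ ≤ l + ε} ∈ (𝒰 : Filter ℕ) := by
      filter_upwards [(Metric.tendsto_nhds.1 hl) ε hε] with n hn
      rw [Real.dist_eq] at hn
      have := (abs_lt.1 hn).2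
      show ‖x n‖ ≤ l + ε
      linarith
    have h1 : (nullSub 𝕜 E 𝒰).mkQ x = (nullSub 𝕜 E 𝒰).mkQ (UPX.cut x {n | ‖x n‖ ≤ l + ε}) := by
      rw [← sub_eq_zero, ← map_sub, Submodule.mkQ_apply, Submodule.Quotient.mk_eq_zero]
      show Tendsto (fun n => ‖(x - UPX.cut x {n | ‖x n‖ ≤ l + ε} : BS E) n‖) (𝒰 : Filter ℕ) (𝓝 0)
      refine tendsto_const_nhds.congr' ?_
      filter_upwards [hA] with n hn
      rw [lp.coeFn_sub, Pi.sub_apply, UPX.cut_of_mem x hn, sub_self, norm_zero]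
    rw [h1]
    refine (Submodule.Quotient.norm_mk_le _ _).trans ?_
    refine lp.norm_le_of_forall_le (by linarith) (fun n => ?_)
    by_cases hn : n ∈ {n | ‖x n‖ ≤ l + ε}
    · rw [UPX.cut_of_mem x hn]
      exact hn
    · rw [UPX.cut_of_notMem x hn, norm_zero]
      linarith
  · apply le_of_forall_pos_le_add
    intro ε hε
    obtain ⟨m, hm, hm'⟩ := Submodule.Quotient.norm_mk_lt ((nullSub 𝕜 E 𝒰).mkQ x) hε
    refine le_trans ?_ hm'.le
    rw [Submodule.mkQ_apply, Submodule.Quotient.eq] at hm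
    have h0 : Tendsto (fun n => ‖(m - x : BS E) n‖) (𝒰 : Filter ℕ) (𝓝 0) := hm
    have h2 : Tendsto (fun n => ‖m‖ + ‖(m - x : BS E) n‖) (𝒰 : Filter ℕ) (𝓝 (‖m‖ + 0)) :=
      tendsto_const_nhds.add h0
    rw [add_zero] at h2
    refine le_of_tendsto_of_tendsto' hl h2 (fun n => ?_)
    have h3 : x n = m n - (m - x : BS E) n := by
      rw [lp.coeFn_sub, Pi.sub_apply]
      abel
    calc ‖x n‖ = ‖m n - (m - x : BS E) n‖ := by rw [← h3]
      _ ≤ ‖m n‖ + ‖(m - x : BS E) n‖ := norm_sub_le _ _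
      _ ≤ ‖m‖ + ‖(m - x : BS E) n‖ := by
        have := UPX.apply_le m n
        linarith

end Pool.Agent.R286.UW
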