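import Pool.Agent.R286.UW.Stm

/-! WITA: witness from the data in the case `p > 2` -/

set_option autoImplicit false

open Filter Topology MeasureTheory
open scoped ENNReal

namespace Pool.Agent.R286.UW

namespace WitAaux

variable {𝕜 : Type*} [RCLike 𝕜] {V : Type*} [NormedAddCommGroup V] [NormedSpace 𝕜 V]

theorem cnorm (s : ℝ) (h0 : 0 ≤ s) (h1 : s ≤ 1) (k : ℕ) :
    ‖(((1 - s) * s ^ (k + 1) : ℝ) : 𝕜)‖ = (1 - s) * s ^ (k + 1) := by
  rw [RCLike.norm_ofReal, abs_of_nonneg]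
  exact mul_nonneg (by linarith) (pow_nonneg h0 _)

theorem geo (s : ℝ) (h0 : 0 < s) (h1 : s < 1) (K : ℕ) :
    HasSum (fun k => (1 - s) * s ^ (k + K + 1)) (s ^ (K + 1)) := by
  have h := (hasSum_geometric_of_lt_one h0.le h1).mul_left ((1 - s) * s ^ (K + 1))
  have hne : (1 - s) ≠ 0 := by linarith
  have e : (1 - s) * s ^ (K + 1) * (1 - s)⁻¹ = s ^ (K + 1) := by
    field_simp
  rw [e] at h
  have e2 : (fun k : ℕ => (1 - s) * s ^ (k + K + 1)) = fun k => (1 - s) * s ^ (K + 1) * s ^ k := by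
    funext k
    ring
  rw [e2]
  exact h

theorem smb [CompleteSpace V] (s : ℝ) (h0 : 0 < s) (h1 : s < 1) (x : ℕ → V)
    (hx : ∀ k, ‖x k‖ ≤ 1) :
    Summable (fun k => (((1 - s) * s ^ (k + 1) : ℝ) : 𝕜) • x k) := by
  refine Summable.of_norm_bounded (g := fun k => (1 - s) * s ^ (k + 0 + 1)) (geo s h0 h1 0).summable ?_
  intro k
  rw [norm_smul, cnorm s h0.le h1.le]
  have : 0 ≤ (1 - s) * s ^ (k + 1) := mul_nonneg (by linarith) (pow_nonneg h0.le _)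
  simpa using mul_le_mul_of_nonneg_left (hx k) this

theorem tail [CompleteSpace V] (s : ℝ) (h0 : 0 < s) (h1 : s < 1) (x : ℕ → V)
    (hx : ∀ k, ‖x k‖ ≤ 1) (K : ℕ) :
    ‖(∑' k, (((1 - s) * s ^ (k + 1) : ℝ) : 𝕜) • x k) -
      ∑ k ∈ Finset.range K, (((1 - s) * s ^ (k + 1) : ℝ) : 𝕜) • x k‖ ≤ s ^ (K + 1) := by
  have hs := smb (𝕜 := 𝕜) s h0 h1 x hx
  have e := hs.sum_add_tsum_nat_add K
  rw [← e, add_sub_cancel_left]
  refine tsum_of_norm_bounded (geo s h0 h1 K) ?_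
  intro k
  rw [norm_smul, cnorm s h0.le h1.le]
  have : 0 ≤ (1 - s) * s ^ (k + K + 1) := mul_nonneg (by linarith) (pow_nonneg h0.le _)
  simpa using mul_le_mul_of_nonneg_left (hx (k + K)) this

/-- partial sums have upper 2-estimates -/
theorem partialEst (s : ℝ) (h0 : 0 < s) (h1 : s < 1) (G : ℕ → ℕ → V)
    (upG : ∀ k, ∃ M : ℝ, 0 ≤ M ∧ ∀ (t : ℕ → 𝕜) (F : Finset ℕ),
      ‖∑ n ∈ F, t n • G k n‖ ≤ M * Real.sqrt (∑ n ∈ F, ‖t n‖ ^ 2)) (K : ℕ) :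
    ∃ M : ℝ, 0 ≤ M ∧ ∀ (t : ℕ → 𝕜) (F : Finset ℕ),
      ‖∑ n ∈ F, t n • ∑ k ∈ Finset.range K, (((1 - s) * s ^ (k + 1) : ℝ) : 𝕜) • G k n‖ ≤
        M * Real.sqrt (∑ n ∈ F, ‖t n‖ ^ 2) := by
  choose M hM0 hM using upG
  refine ⟨∑ k ∈ Finset.range K, ((1 - s) * s ^ (k + 1)) * M k, ?_, ?_⟩
  · exact Finset.sum_nonneg fun k _ => mul_nonneg
      (mul_nonneg (by linarith) (pow_nonneg h0.le _)) (hM0 k)
  · intro t F
    have e : (∑ n ∈ F, t n • ∑ k ∈ Finset.range K, (((1 - s) * s ^ (k + 1) : ℝ) : 𝕜) • G k n) =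
        ∑ k ∈ Finset.range K, (((1 - s) * s ^ (k + 1) : ℝ) : 𝕜) • ∑ n ∈ F, t n • G k n := by
      simp only [Finset.smul_sum]
      rw [Finset.sum_comm]
      refine Finset.sum_congr rfl fun k _ => Finset.sum_congr rfl fun n _ => ?_
      rw [smul_comm]
    rw [e, Finset.sum_mul]
    refine (norm_sum_le _ _).trans (Finset.sum_le_sum fun k _ => ?_)
    rw [norm_smul, cnorm s h0.le h1.le, mul_assoc ((1 - s) * s ^ (k + 1)) (M k)]
    exact mul_le_mul_of_nonneg_left (hM k t F) (mul_nonneg (by linarith) (pow_nonneg h0.le _))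

theorem exk (s : ℝ) (h0 : 0 < s) (h1 : s < 1) (A ε : ℝ) (hε : 0 < ε) :
    ∃ k : ℕ, A * s ^ (k + 1) ≤ ε := by
  have h : Tendsto (fun k : ℕ => A * s ^ (k + 1)) atTop (𝓝 (A * 0)) :=
    ((tendsto_pow_atTop_nhds_zero_of_lt_one h0.le h1).comp (tendsto_add_atTop_nat 1)).const_mul A
  rw [mul_zero] at h
  obtain ⟨k, hk⟩ := (h.eventually (ge_mem_nhds hε)).exists
  exact ⟨k, hk⟩

theorem fin (s κ C R N P Q : ℝ) (k : ℕ) (hs : 0 ≤ s) (hC : 1 ≤ C) (hR : 0 < R)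
    (hN : 0 ≤ N) (hk : R * C ^ 2 * s ^ (k + 1) ≤ κ) (hQ0 : 0 ≤ Q)
    (hP : P ≤ C * (s ^ 2) ^ (k + 1) * Real.sqrt N) (hQ : Q ≤ C * Real.sqrt N) :
    R * (P * Q) ≤ κ * s ^ (k + 1) * N := by
  have h1 : P * Q ≤ (C * (s ^ 2) ^ (k + 1) * Real.sqrt N) * (C * Real.sqrt N) :=
    mul_le_mul hP hQ hQ0 (by positivity)
  have h2 : (C * (s ^ 2) ^ (k + 1) * Real.sqrt N) * (C * Real.sqrt N) =
      C ^ 2 * (s ^ (k + 1)) * s ^ (k + 1) * N := by
    have : Real.sqrt N * Real.sqrt N = N := Real.mul_self_sqrt hN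
    calc (C * (s ^ 2) ^ (k + 1) * Real.sqrt N) * (C * Real.sqrt N)
        = C ^ 2 * (s ^ 2) ^ (k + 1) * (Real.sqrt N * Real.sqrt N) := by ring
      _ = C ^ 2 * (s ^ (k + 1)) * s ^ (k + 1) * N := by rw [this]; ring
  rw [h2] at h1
  calc R * (P * Q) ≤ R * (C ^ 2 * (s ^ (k + 1)) * s ^ (k + 1) * N) :=
        mul_le_mul_of_nonneg_left h1 hR.le
    _ = (R * C ^ 2 * s ^ (k + 1)) * (s ^ (k + 1) * N) := by ring
    _ ≤ κ * (s ^ (k + 1) * N) := mul_le_mul_of_nonneg_right hk (by positivity)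
    _ = κ * s ^ (k + 1) * N := by ring

end WitAaux

open WitAaux in
theorem witA {𝕜 : Type*} [RCLike 𝕜] {E : Type*} [NormedAddCommGroup E] [NormedSpace 𝕜 E] :
    StWitA 𝕜 E := by
  intro C β G ρ f ρs hC hβ0 hβ1 D
  obtain ⟨s, hs⟩ : ∃ s, s = Real.sqrt β := ⟨_, rfl⟩
  have hs0 : 0 < s := by rw [hs]; exact Real.sqrt_pos.2 hβ0
  have hs1 : s < 1 := by
    rw [hs]
    calc Real.sqrt β < Real.sqrt 1 := Real.sqrt_lt_sqrt hβ0.le hβ1
      _ = 1 := Real.sqrt_one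
  have hsβ : s ^ 2 = β := by rw [hs]; exact Real.sq_sqrt hβ0.le
  refine ⟨fun n => ∑' k, (((1 - s) * s ^ (k + 1) : ℝ) : 𝕜) • G k n, ρ, ?_⟩
  refine ⟨?_, D.nρ, ?_, ?_⟩
  · intro n
    have h := tail (𝕜 := 𝕜) s hs0 hs1 (fun k => G k n) (fun k => D.nG k n) 0
    simp only [Finset.range_zero, Finset.sum_empty, sub_zero, zero_add, pow_one] at h
    exact h.trans hs1.le
  · intro η hη
    obtain ⟨K, hK⟩ := exk s hs0 hs1 1 η hη
    rw [one_mul] at hK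
    obtain ⟨M, hM0, hM⟩ := partialEst (𝕜 := 𝕜) s hs0 hs1 G D.upG K
    refine ⟨max C M, fun n => ∑ k ∈ Finset.range K, (((1 - s) * s ^ (k + 1) : ℝ) : 𝕜) • G k n, ρ,
      ⟨le_max_of_le_right hM0, ?_, ?_⟩, ?_⟩
    · intro t F
      exact (hM t F).trans (mul_le_mul_of_nonneg_right (le_max_right _ _) (Real.sqrt_nonneg _))
    · intro t F
      exact (D.upρ t F).trans (mul_le_mul_of_nonneg_right (le_max_left _ _) (Real.sqrt_nonneg _))
    · intro n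
      refine ⟨(tail (𝕜 := 𝕜) s hs0 hs1 (fun k => G k n) (fun k => D.nG k n) K).trans hK, ?_⟩
      simp [hη.le]
  · intro R hR
    obtain ⟨k, hk⟩ := exk s hs0 hs1 (R * C ^ 2) (1 - s) (by linarith)
    obtain ⟨N₀, hN⟩ := D.upf k
    refine ⟨(1 - s) * s ^ (k + 1), N₀, f k, ρs, ?_, ?_, ?_, ?_⟩
    · exact mul_pos (by linarith) (pow_pos hs0 _)
    · exact fun n => ⟨D.nf k n, D.nρs n⟩
    · intro n
      rw [D.pairρ n, mul_one]
      have hsum := (smb (𝕜 := 𝕜) s hs0 hs1 (fun k => G k n) (fun k => D.nG k n)).hasSum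
      have h2 := (ContinuousLinearMap.apply 𝕜 𝕜 (f k n)).hasSum hsum
      have h3 : HasSum (fun j => if j = k then (((1 - s) * s ^ (k + 1) : ℝ) : 𝕜) else 0)
          (((1 - s) * s ^ (k + 1) : ℝ) : 𝕜) := hasSum_ite_eq k _
      refine h2.unique (h3.congr_fun ?_)
      intro j
      simp only [ContinuousLinearMap.apply_apply, smul_apply, smul_eq_mul,
        D.pair j k n]
      by_cases hj : j = k
      · subst hj; simp
      · simp [hj]
    · intro F θ hF hθ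
      have h1 := hN F θ hF hθ
      have h2 := D.upρs F θ hθ
      rw [← hsβ] at h1
      exact fin s (1 - s) C R F.card _ _ k hs0.le hC hR (by positivity) hk (norm_nonneg _) h1 h2

end Pool.Agent.R286.UW
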