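import Pool.Agent.R286.UW.Stm

set_option autoImplicit false

open Filter Topology MeasureTheory
open scoped ENNReal

namespace Pool.Agent.R286.UW

namespace WitBAux

/-- the coefficients -/
noncomputable def cf (s : ℝ) (k : ℕ) : ℝ := (1 - s) * s ^ (k + 1)

theorem cf_pos {s : ℝ} (h0 : 0 < s) (h1 : s < 1) (k : ℕ) : 0 < cf s k :=
  mul_pos (by linarith) (pow_pos h0 _)

theorem cf_hasSum {s : ℝ} (h0 : 0 < s) (h1 : s < 1) : HasSum (cf s) s := by
  have h := (hasSum_geometric_of_lt_one h0.le h1).mul_left ((1 - s) * s)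
  have h2 : (1 - s) * s * (1 - s)⁻¹ = s := by
    have : (1 - s) ≠ 0 := by linarith
    field_simp
  rw [h2] at h
  have h3 : cf s = fun k : ℕ => (1 - s) * s * s ^ k := by
    funext k
    unfold cf
    ring
  rw [h3]
  exact h

end WitBAux

open WitBAux in
theorem witB {𝕜 : Type*} [RCLike 𝕜] {E : Type*} [NormedAddCommGroup E] [NormedSpace 𝕜 E] :
    StWitB 𝕜 E := by
  intro hE C β G ρ f ρs hC hβ0 hβ1 hD
  set s : ℝ := Real.sqrt β with hs
  have hs0 : 0 < s := Real.sqrt_pos.2 hβ0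
  have hs1 : s < 1 := by
    rw [hs, Real.sqrt_lt' one_pos]; simpa using hβ1
  have hss : s ^ 2 = β := Real.sq_sqrt hβ0.le
  have hcs := cf_hasSum hs0 hs1
  have hnrm : ∀ n k, ‖((cf s k : ℝ) : 𝕜) • G k n‖ ≤ cf s k := by
    intro n k
    rw [norm_smul, RCLike.norm_ofReal, abs_of_pos (cf_pos hs0 hs1 k)]
    calc cf s k * ‖G k n‖ ≤ cf s k * 1 :=
          mul_le_mul_of_nonneg_left (hD.nG k n) (cf_pos hs0 hs1 k).le
      _ = cf s k := mul_one _
  have hsum : ∀ n, Summable (fun k => ((cf s k : ℝ) : 𝕜) • G k n) := fun n =>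
    Summable.of_norm_bounded hcs.summable (hnrm n)
  refine ⟨ρs, fun n => ∑' k, ((cf s k : ℝ) : 𝕜) • G k n, hD.nρs, ?_, ?_, ?_⟩
  · intro n
    exact (tsum_of_norm_bounded hcs (hnrm n)).trans hs1.le
  · intro η hη
    choose M hM0 hM using hD.upG
    have ht := tendsto_sum_nat_add (cf s)
    obtain ⟨K, hK⟩ := (ht.eventually (gt_mem_nhds hη)).exists
    refine ⟨max C (∑ k ∈ Finset.range K, cf s k * M k), ρs,
      fun n => ∑ k ∈ Finset.range K, ((cf s k : ℝ) : 𝕜) • G k n, ⟨?_, ?_, ?_⟩, ?_⟩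
    · exact le_trans (by linarith) (le_max_left _ _)
    · intro t F
      exact (hD.upρs t F).trans
        (mul_le_mul_of_nonneg_right (le_max_left _ _) (Real.sqrt_nonneg _))
    · intro t F
      have h1 : ∑ m ∈ F, t m • (∑ k ∈ Finset.range K, ((cf s k : ℝ) : 𝕜) • G k m) =
          ∑ k ∈ Finset.range K, ((cf s k : ℝ) : 𝕜) • ∑ m ∈ F, t m • G k m := by
        simp_rw [Finset.smul_sum]
        rw [Finset.sum_comm]
        refine Finset.sum_congr rfl fun k _ => Finset.sum_congr rfl fun m _ => ?_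
        rw [smul_comm]
      rw [h1]
      calc ‖∑ k ∈ Finset.range K, ((cf s k : ℝ) : 𝕜) • ∑ m ∈ F, t m • G k m‖
          ≤ ∑ k ∈ Finset.range K, ‖((cf s k : ℝ) : 𝕜) • ∑ m ∈ F, t m • G k m‖ :=
            norm_sum_le _ _
        _ ≤ ∑ k ∈ Finset.range K, cf s k * (M k * Real.sqrt (∑ m ∈ F, ‖t m‖ ^ 2)) := by
            refine Finset.sum_le_sum fun k _ => ?_
            rw [norm_smul, RCLike.norm_ofReal, abs_of_pos (cf_pos hs0 hs1 k)]
            exact mul_le_mul_of_nonneg_left (hM k t F) (cf_pos hs0 hs1 k).le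
        _ = (∑ k ∈ Finset.range K, cf s k * M k) * Real.sqrt (∑ m ∈ F, ‖t m‖ ^ 2) := by
            rw [Finset.sum_mul]
            exact Finset.sum_congr rfl fun k _ => by ring
        _ ≤ _ := mul_le_mul_of_nonneg_right (le_max_right _ _) (Real.sqrt_nonneg _)
    · intro n
      refine ⟨by simpa using hη.le, ?_⟩
      have h1 := (hsum n).sum_add_tsum_nat_add K
      have h2 : (∑' k, ((cf s k : ℝ) : 𝕜) • G k n) -
          ∑ k ∈ Finset.range K, ((cf s k : ℝ) : 𝕜) • G k n =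
          ∑' k, ((cf s (k + K) : ℝ) : 𝕜) • G (k + K) n := by
        rw [← h1]; abel
      rw [h2]
      have h3 : HasSum (fun k => cf s (k + K)) (∑' k, cf s (k + K)) :=
        ((summable_nat_add_iff K).2 hcs.summable).hasSum
      exact (tsum_of_norm_bounded h3 (fun k => hnrm n (k + K))).trans hK.le
  · intro R hR
    have hlim : Tendsto (fun k : ℕ => R * C ^ 2 * s ^ (k + 1)) atTop (𝓝 (R * C ^ 2 * 0)) :=
      ((tendsto_pow_atTop_nhds_zero_of_lt_one hs0.le hs1).comp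
        (tendsto_add_atTop_nat 1)).const_mul _
    rw [mul_zero] at hlim
    obtain ⟨k, hk⟩ := (hlim.eventually (gt_mem_nhds (show (0 : ℝ) < 1 - s by linarith))).exists
    obtain ⟨N₀, hN₀⟩ := hD.upf k
    refine ⟨cf s k, N₀, ρ, f k, cf_pos hs0 hs1 k, fun n => ⟨hD.nρ n, hD.nf k n⟩, ?_, ?_⟩
    · intro n
      rw [hD.pairρ n, one_mul, (f k n).map_tsum (hsum n)]
      rw [tsum_eq_single k]
      · rw [map_smul, hD.pair k k n, if_pos rfl, smul_eq_mul, mul_one]
      · intro j hj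
        rw [map_smul, hD.pair j k n, if_neg hj, smul_zero]
    · intro F θ hF hθ
      have h1 := hD.upρ F θ hθ
      have h2 := hN₀ F θ hF hθ
      have hN : (0 : ℝ) ≤ F.card := Nat.cast_nonneg _
      have h3 : ‖∑ n ∈ F, (θ n : 𝕜) • ρ n‖ * ‖∑ n ∈ F, (θ n : 𝕜) • f k n‖ ≤
          (C * Real.sqrt F.card) * (C * β ^ (k + 1) * Real.sqrt F.card) :=
        mul_le_mul h1 h2 (norm_nonneg _) (mul_nonneg (by linarith) (Real.sqrt_nonneg _))
      have h4 : (C * Real.sqrt F.card) * (C * β ^ (k + 1) * Real.sqrt F.card) =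
          C ^ 2 * β ^ (k + 1) * F.card := by
        have := Real.mul_self_sqrt hN
        calc _ = C ^ 2 * β ^ (k + 1) * (Real.sqrt F.card * Real.sqrt F.card) := by ring
          _ = _ := by rw [this]
      rw [h4] at h3
      have h5 : β ^ (k + 1) = s ^ (k + 1) * s ^ (k + 1) := by
        rw [← hss, ← pow_mul, ← pow_add]; congr 1; ring
      calc R * (‖∑ n ∈ F, (θ n : 𝕜) • ρ n‖ * ‖∑ n ∈ F, (θ n : 𝕜) • f k n‖)
          ≤ R * (C ^ 2 * β ^ (k + 1) * F.card) := mul_le_mul_of_nonneg_left h3 hR.le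
        _ = (R * C ^ 2 * s ^ (k + 1)) * (s ^ (k + 1) * F.card) := by rw [h5]; ring
        _ ≤ (1 - s) * (s ^ (k + 1) * F.card) :=
            mul_le_mul_of_nonneg_right hk.le (mul_nonneg (pow_nonneg hs0.le _) hN)
        _ = cf s k * F.card := by unfold cf; ring

end Pool.Agent.R286.UW
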